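import Pool.Agent.Helper52.RK.Core

/-! ST1: the first Stokes formula (project RK). -/

open Complex Metric Set Filter Topology MeasureTheory
open scoped ContDiff ComplexConjugate ComplexOrder Manifold Matrix

namespace Pool.Agent.Helper52.RK

open Pool.Agent.Helper95.Lin Pool.Agent.Helper16.Abund Pool.Agent.Helper92.Orb
  Pool.Agent.Helper10.SP Pool.Agent.Helper95.RK Pool.Agent.Helper15.RK

universe u v

theorem sum4 {ι κ α β : Type*} [Fintype ι] [Fintype κ] [Fintype α] [Fintype β]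
    (f : ι → κ → α → β → ℂ) :
    ∑ j, ∑ l, ∑ a, ∑ c, f j l a c = ∑ a, ∑ c, ∑ l, ∑ j, f j l a c := by
  have h1 : ∑ j, ∑ l, ∑ a, ∑ c, f j l a c = ∑ p : (ι × κ) × (α × β), f p.1.1 p.1.2 p.2.1 p.2.2 := by
    rw [Fintype.sum_prod_type, Fintype.sum_prod_type]
    refine Finset.sum_congr rfl fun j _ => Finset.sum_congr rfl fun l _ => ?_
    rw [Fintype.sum_prod_type]
  have h2 : ∑ a, ∑ c, ∑ l, ∑ j, f j l a c = ∑ p : (α × β) × (κ × ι), f p.2.2 p.2.1 p.1.1 p.1.2 := by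
    rw [Fintype.sum_prod_type, Fintype.sum_prod_type]
    refine Finset.sum_congr rfl fun j _ => Finset.sum_congr rfl fun l _ => ?_
    rw [Fintype.sum_prod_type]
  rw [h1, h2]
  exact Fintype.sum_equiv ((Equiv.prodComm _ _).trans
    (Equiv.prodCongr (Equiv.refl _) (Equiv.prodComm _ _))) _ _ (fun p => rfl)

theorem st1 (hLMF : S_LMF) (hLIMK : S_LIMK) (hKFE : S_KFE) (hKFB : S_KFB) (hLEVK : S_LEVK)
    (hKES : S_KES.{u}) (hBNDK : S_BNDK.{u}) (hDETI : S_DETI.{u}) (hLMID : S_LMID.{u}) :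
    S_ST1.{u} := by
  intro b k T G _ R H Φ g hF κ hκ u hu
  have hTo : IsOpen T := hF.ket.et.isOpen
  have hK : ∀ s : ℝ, 0 ≤ s → KEt T R fun x => H x + (s : ℂ) • LM Φ x := (hKES hF).1
  obtain ⟨hu1, hu2⟩ := hu
  obtain ⟨m1, m2, m3, m4⟩ := hLMF T hTo u hu1
  have hDu : DInv R u := by
    intro U τ hτ x hx
    obtain ⟨hU, -, γ, hγ⟩ := hτ
    refine Filter.EventuallyEq.fderiv_eq ?_
    filter_upwards [hU.mem_nhds hx] with y hy
    exact hu2 γ y (τ y) (hγ y hy)
  let V : Matrix (Fin (b + k)) (Fin (b + k)) ℂ → Cn (b + k) → ℂ := fun K x =>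
    Matrix.trace (K * LM u x)
  have hVs : ∀ K x, V K x = ∑ j, ∑ l, K j l * LM u x l j := fun K x => by
    simp only [V, Matrix.trace, Matrix.diag, Matrix.mul_apply]
  have hV : ContinuousOn (fun p : Matrix (Fin (b + k)) (Fin (b + k)) ℂ × Cn (b + k) => V p.1 p.2)
      (univ ×ˢ T) := by
    have h1 : (fun p : Matrix (Fin (b + k)) (Fin (b + k)) ℂ × Cn (b + k) => V p.1 p.2) =
        fun p => ∑ j, ∑ l, p.1 j l * LM u p.2 l j := by
      funext p
      exact hVs p.1 p.2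
    rw [h1]
    refine continuousOn_finsetSum _ fun j _ => ?_
    refine continuousOn_finsetSum _ fun l _ => ?_
    refine ContinuousOn.mul ?_ ?_
    · have : Continuous (fun p : Matrix (Fin (b + k)) (Fin (b + k)) ℂ × Cn (b + k) => p.1 j l) := by
        fun_prop
      exact this.continuousOn
    · exact (m1 l j).continuousOn.comp continuous_snd.continuousOn (fun p hp => hp.2)
  obtain ⟨F, hF1, hF2⟩ := core hLMF hLIMK hKFE hKFB hBNDK hF hκ V hV hK (by
    intro s hs U τ hτ x hx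
    have hs0 : (0 : ℝ) ≤ s := zero_le_one.trans hs
    obtain ⟨d1, d2, d3, d4, d5, d6⟩ := hDETI T R _ (hK s hs0)
    obtain ⟨l1, l2, l3, l4⟩ := hLMID T R _ (hK s hs0) κ hκ u hu1 hDu
    obtain ⟨hU, -, γ, hγ⟩ := id hτ
    have e1 := (d5 U τ hτ x hx).1
    have e2 := l2.2 γ x (τ x) (hγ x hx)
    change _ = (trL (fun x => H x + (s : ℂ) • LM Φ x) u x).re at e2
    have e3 : (V (H x + (s : ℂ) • LM Φ x)⁻¹ x).re =
      (V (H (τ x) + (s : ℂ) • LM Φ (τ x))⁻¹ (τ x)).re := e2.symm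
    rw [e3, e1]
    ring) (by
    intro s hs
    have hs0 : (0 : ℝ) ≤ s := zero_le_one.trans hs
    obtain ⟨l1, l2, l3, l4⟩ := hLMID T R _ (hK s hs0) κ hκ u hu1 hDu
    rw [← l3]
    refine integral_congr_ae (ae_of_all _ fun x => ?_)
    simp only [V, trL]
    ring)
  refine ⟨F, hF1, fun W L w v hfr hWT x hx => ?_⟩
  rw [hF2 W L w v hfr hWT x hx]
  congr 2
  rw [hVs]
  have hlev := hLEVK hfr u (hu1.mono hWT) x hx
  have e1 : Matrix.trace ((gram H v x)⁻¹ * LF v u x) =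
      ∑ α, ∑ β, (gram H v x)⁻¹ α β * hermi (LM u x) (v β x) (v α x) := by
    simp only [Matrix.trace, Matrix.diag, Matrix.mul_apply]
    refine Finset.sum_congr rfl fun α _ => Finset.sum_congr rfl fun β _ => ?_
    rw [hlev β α]
    rfl
  rw [e1]
  simp only [Kf, Matrix.of_apply, hermi, Finset.sum_mul, Finset.mul_sum]
  rw [sum4]
  refine Finset.sum_congr rfl fun α _ => Finset.sum_congr rfl fun β _ =>
    Finset.sum_congr rfl fun l _ => Finset.sum_congr rfl fun j _ => ?_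
  ring

end Pool.Agent.Helper52.RK
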