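import Pool.Agent.Helper52.RK.Core

/-! ST2: the second Stokes formula (project RK). -/

open Complex Metric Set Filter Topology MeasureTheory
open scoped ContDiff ComplexConjugate ComplexOrder Manifold Matrix

namespace Pool.Agent.Helper52.RK

open Pool.Agent.Helper95.Lin Pool.Agent.Helper16.Abund Pool.Agent.Helper92.Orb
  Pool.Agent.Helper10.SP Pool.Agent.Helper95.RK Pool.Agent.Helper15.RK

universe u v

section alg

variable {k n : ℕ}

/-- The contraction of a four-tensor with the vectors. -/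
noncomputable def X4 (v : Fin k → Fin n → ℂ) (D : Fin n → Fin n → Fin n → Fin n → ℂ)
    (α β γ δ : Fin k) : ℂ :=
  ∑ i, ∑ j, ∑ m, ∑ l, v α i * conj (v β j) * v γ m * conj (v δ l) * D i j m l

theorem X4_E (v : Fin k → Fin n → ℂ) (D : Fin n → Fin n → Fin n → Fin n → ℂ)
    (α β γ δ : Fin k) :
    ∑ i, ∑ j, ∑ m, ∑ l, v α i * conj (v β j) * v γ m * conj (v δ l) *
      (D i j m l - D m j i l - D i l m j + D m l i j) =
    X4 v D α β γ δ - X4 v D γ β α δ - X4 v D α δ γ β + X4 v D γ δ α β := by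
  have h1 : ∑ i, ∑ j, ∑ m, ∑ l, v α i * conj (v β j) * v γ m * conj (v δ l) * D m j i l =
      X4 v D γ β α δ := by
    unfold X4
    have e1 : ∀ f : Fin n → Fin n → Fin n → Fin n → ℂ,
        ∑ i, ∑ j, ∑ m, ∑ l, f i j m l = ∑ i, ∑ j, ∑ m, ∑ l, f m j i l := by
      intro f
      calc ∑ i, ∑ j, ∑ m, ∑ l, f i j m l = ∑ j, ∑ i, ∑ m, ∑ l, f i j m l := Finset.sum_comm
        _ = ∑ j, ∑ i, ∑ m, ∑ l, f m j i l :=
          Finset.sum_congr rfl fun j _ => Finset.sum_comm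
        _ = _ := Finset.sum_comm
    rw [e1]
    refine Finset.sum_congr rfl fun i _ => Finset.sum_congr rfl fun j _ =>
      Finset.sum_congr rfl fun m _ => Finset.sum_congr rfl fun l _ => ?_
    ring
  have h2 : ∀ (D : Fin n → Fin n → Fin n → Fin n → ℂ) (α β γ δ : Fin k),
      ∑ i, ∑ j, ∑ m, ∑ l, v α i * conj (v β j) * v γ m * conj (v δ l) * D i l m j =
      X4 v D α δ γ β := by
    intro D α β γ δ
    unfold X4
    refine Finset.sum_congr rfl fun i _ => ?_
    have e1 : ∀ f : Fin n → Fin n → Fin n → ℂ,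
        ∑ j, ∑ m, ∑ l, f j m l = ∑ j, ∑ m, ∑ l, f l m j := by
      intro f
      calc ∑ j, ∑ m, ∑ l, f j m l = ∑ m, ∑ j, ∑ l, f j m l := Finset.sum_comm
        _ = ∑ m, ∑ j, ∑ l, f l m j :=
          Finset.sum_congr rfl fun j _ => Finset.sum_comm
        _ = _ := Finset.sum_comm
    rw [e1]
    refine Finset.sum_congr rfl fun j _ => Finset.sum_congr rfl fun m _ =>
      Finset.sum_congr rfl fun l _ => ?_
    ring
  have h3 : ∑ i, ∑ j, ∑ m, ∑ l, v α i * conj (v β j) * v γ m * conj (v δ l) * D m l i j =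
      X4 v D γ δ α β := by
    have h4 := h2 (fun i j m l => D m j i l) α β γ δ
    rw [h4]
    unfold X4
    have e1 : ∀ f : Fin n → Fin n → Fin n → Fin n → ℂ,
        ∑ i, ∑ j, ∑ m, ∑ l, f i j m l = ∑ i, ∑ j, ∑ m, ∑ l, f m j i l := by
      intro f
      calc ∑ i, ∑ j, ∑ m, ∑ l, f i j m l = ∑ j, ∑ i, ∑ m, ∑ l, f i j m l := Finset.sum_comm
        _ = ∑ j, ∑ i, ∑ m, ∑ l, f m j i l :=
          Finset.sum_congr rfl fun j _ => Finset.sum_comm
        _ = _ := Finset.sum_comm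
    rw [e1]
    refine Finset.sum_congr rfl fun i _ => Finset.sum_congr rfl fun j _ =>
      Finset.sum_congr rfl fun m _ => Finset.sum_congr rfl fun l _ => ?_
    ring
  have h5 : ∑ i, ∑ j, ∑ m, ∑ l, v α i * conj (v β j) * v γ m * conj (v δ l) *
      (D i j m l - D m j i l - D i l m j + D m l i j) =
      ∑ i, ∑ j, ∑ m, ∑ l, v α i * conj (v β j) * v γ m * conj (v δ l) * D i j m l -
      ∑ i, ∑ j, ∑ m, ∑ l, v α i * conj (v β j) * v γ m * conj (v δ l) * D m j i l -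
      ∑ i, ∑ j, ∑ m, ∑ l, v α i * conj (v β j) * v γ m * conj (v δ l) * D i l m j +
      ∑ i, ∑ j, ∑ m, ∑ l, v α i * conj (v β j) * v γ m * conj (v δ l) * D m l i j := by
    simp only [← Finset.sum_sub_distrib, ← Finset.sum_add_distrib]
    refine Finset.sum_congr rfl fun i _ => Finset.sum_congr rfl fun j _ =>
      Finset.sum_congr rfl fun m _ => Finset.sum_congr rfl fun l _ => ?_
    ring
  rw [h5, h1, h2 D, h3]
  rfl

theorem sumE (q : Fin k → Fin k → ℂ) (X : Fin k → Fin k → Fin k → Fin k → ℂ) :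
    ∑ α, ∑ β, ∑ γ, ∑ δ, q β α * q δ γ * (X α β γ δ - X γ β α δ - X α δ γ β + X γ δ α β) =
    2 * ∑ α, ∑ β, ∑ γ, ∑ δ, (q β α * q δ γ - q δ α * q β γ) * X α β γ δ := by
  have e1 : ∀ f : Fin k → Fin k → Fin k → Fin k → ℂ,
      ∑ i, ∑ j, ∑ m, ∑ l, f i j m l = ∑ i, ∑ j, ∑ m, ∑ l, f m j i l := by
    intro f
    calc ∑ i, ∑ j, ∑ m, ∑ l, f i j m l = ∑ j, ∑ i, ∑ m, ∑ l, f i j m l := Finset.sum_comm
      _ = ∑ j, ∑ i, ∑ m, ∑ l, f m j i l :=
        Finset.sum_congr rfl fun j _ => Finset.sum_comm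
      _ = _ := Finset.sum_comm
  have e2 : ∀ f : Fin k → Fin k → Fin k → Fin k → ℂ,
      ∑ i, ∑ j, ∑ m, ∑ l, f i j m l = ∑ i, ∑ j, ∑ m, ∑ l, f i l m j := by
    intro f
    refine Finset.sum_congr rfl fun i _ => ?_
    calc ∑ j, ∑ m, ∑ l, f i j m l = ∑ m, ∑ j, ∑ l, f i j m l := Finset.sum_comm
      _ = ∑ m, ∑ j, ∑ l, f i l m j :=
        Finset.sum_congr rfl fun j _ => Finset.sum_comm
      _ = _ := Finset.sum_comm
  have h1 : ∑ α, ∑ β, ∑ γ, ∑ δ, q β α * q δ γ * X γ β α δ =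
      ∑ α, ∑ β, ∑ γ, ∑ δ, q β γ * q δ α * X α β γ δ := e1 _
  have h2 : ∑ α, ∑ β, ∑ γ, ∑ δ, q β α * q δ γ * X α δ γ β =
      ∑ α, ∑ β, ∑ γ, ∑ δ, q δ α * q β γ * X α β γ δ := e2 _
  have h3 : ∑ α, ∑ β, ∑ γ, ∑ δ, q β α * q δ γ * X γ δ α β =
      ∑ α, ∑ β, ∑ γ, ∑ δ, q δ γ * q β α * X α β γ δ := by
    rw [e1 (fun α β γ δ => q β α * q δ γ * X γ δ α β)]
    exact e2 _
  have h5 : ∑ α, ∑ β, ∑ γ, ∑ δ, q β α * q δ γ * (X α β γ δ - X γ β α δ - X α δ γ β + X γ δ α β) =
      ∑ α, ∑ β, ∑ γ, ∑ δ, q β α * q δ γ * X α β γ δ -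
      ∑ α, ∑ β, ∑ γ, ∑ δ, q β α * q δ γ * X γ β α δ -
      ∑ α, ∑ β, ∑ γ, ∑ δ, q β α * q δ γ * X α δ γ β +
      ∑ α, ∑ β, ∑ γ, ∑ δ, q β α * q δ γ * X γ δ α β := by
    simp only [← Finset.sum_sub_distrib, ← Finset.sum_add_distrib]
    refine Finset.sum_congr rfl fun i _ => Finset.sum_congr rfl fun j _ =>
      Finset.sum_congr rfl fun m _ => Finset.sum_congr rfl fun l _ => ?_
    ring
  rw [h5, h1, h2, h3]
  simp only [← Finset.sum_sub_distrib, ← Finset.sum_add_distrib, Finset.mul_sum]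
  refine Finset.sum_congr rfl fun i _ => Finset.sum_congr rfl fun j _ =>
    Finset.sum_congr rfl fun m _ => Finset.sum_congr rfl fun l _ => ?_
  ring

/-- The contraction with `K K`. -/
theorem contr (v : Fin k → Fin n → ℂ) (D : Fin n → Fin n → Fin n → Fin n → ℂ)
    (q : Fin k → Fin k → ℂ) (K : Fin n → Fin n → ℂ)
    (hK : ∀ j l, K j l = ∑ α, ∑ β, conj (v α j) * q α β * v β l) :
    ∑ j, ∑ i, ∑ l, ∑ m, (K j i * K l m - K l i * K j m) * D i j m l =
    ∑ α, ∑ β, ∑ γ, ∑ δ, (q β α * q δ γ - q δ α * q β γ) * X4 v D α β γ δ := by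
  let f : Fin k × Fin k → Fin n → Fin n → ℂ := fun p j l => conj (v p.1 j) * q p.1 p.2 * v p.2 l
  have hK' : ∀ j l, K j l = ∑ p, f p j l := by
    intro j l
    rw [hK, Fintype.sum_prod_type]
  have hP : ∀ j i l m, K j i * K l m = ∑ p, ∑ r, f p j i * f r l m := by
    intro j i l m
    rw [hK', hK', Finset.sum_mul_sum]
  have hA : ∑ j, ∑ i, ∑ l, ∑ m, K j i * K l m * D i j m l =
      ∑ α, ∑ β, ∑ γ, ∑ δ, q β α * q δ γ * X4 v D α β γ δ := by
    calc ∑ j, ∑ i, ∑ l, ∑ m, K j i * K l m * D i j m l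
        = ∑ x : Fin n × Fin n × Fin n × Fin n, ∑ y : (Fin k × Fin k) × (Fin k × Fin k),
            f y.1 x.1 x.2.1 * f y.2 x.2.2.1 x.2.2.2 * D x.2.1 x.1 x.2.2.2 x.2.2.1 := by
          rw [Fintype.sum_prod_type]
          refine Finset.sum_congr rfl fun j _ => ?_
          rw [Fintype.sum_prod_type]
          refine Finset.sum_congr rfl fun i _ => ?_
          rw [Fintype.sum_prod_type]
          refine Finset.sum_congr rfl fun l _ => Finset.sum_congr rfl fun m _ => ?_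
          rw [Fintype.sum_prod_type, hP, Finset.sum_mul]
          refine Finset.sum_congr rfl fun p _ => ?_
          rw [Finset.sum_mul]
      _ = ∑ y : (Fin k × Fin k) × (Fin k × Fin k), ∑ x : Fin n × Fin n × Fin n × Fin n,
            f y.1 x.1 x.2.1 * f y.2 x.2.2.1 x.2.2.2 * D x.2.1 x.1 x.2.2.2 x.2.2.1 :=
          Finset.sum_comm
      _ = _ := by
          unfold X4
          simp only [Fintype.sum_prod_type, Finset.mul_sum]
          rw [Finset.sum_comm]
          refine Finset.sum_congr rfl fun α _ => Finset.sum_congr rfl fun β _ => ?_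
          rw [Finset.sum_comm]
          refine Finset.sum_congr rfl fun γ _ => Finset.sum_congr rfl fun δ _ => ?_
          rw [Finset.sum_comm]
          refine Finset.sum_congr rfl fun i _ => Finset.sum_congr rfl fun j _ => ?_
          rw [Finset.sum_comm]
          refine Finset.sum_congr rfl fun m _ => Finset.sum_congr rfl fun l _ => ?_
          simp only [f]
          ring
  have hB : ∑ j, ∑ i, ∑ l, ∑ m, K l i * K j m * D i j m l =
      ∑ α, ∑ β, ∑ γ, ∑ δ, q δ α * q β γ * X4 v D α β γ δ := by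
    calc ∑ j, ∑ i, ∑ l, ∑ m, K l i * K j m * D i j m l
        = ∑ x : Fin n × Fin n × Fin n × Fin n, ∑ y : (Fin k × Fin k) × (Fin k × Fin k),
            f y.1 x.2.2.1 x.2.1 * f y.2 x.1 x.2.2.2 * D x.2.1 x.1 x.2.2.2 x.2.2.1 := by
          rw [Fintype.sum_prod_type]
          refine Finset.sum_congr rfl fun j _ => ?_
          rw [Fintype.sum_prod_type]
          refine Finset.sum_congr rfl fun i _ => ?_
          rw [Fintype.sum_prod_type]
          refine Finset.sum_congr rfl fun l _ => Finset.sum_congr rfl fun m _ => ?_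
          rw [Fintype.sum_prod_type, hP, Finset.sum_mul]
          refine Finset.sum_congr rfl fun p _ => ?_
          rw [Finset.sum_mul]
      _ = ∑ y : (Fin k × Fin k) × (Fin k × Fin k), ∑ x : Fin n × Fin n × Fin n × Fin n,
            f y.1 x.2.2.1 x.2.1 * f y.2 x.1 x.2.2.2 * D x.2.1 x.1 x.2.2.2 x.2.2.1 :=
          Finset.sum_comm
      _ = _ := by
          unfold X4
          simp only [Fintype.sum_prod_type, Finset.mul_sum]
          rw [Finset.sum_comm]
          refine Finset.sum_congr rfl fun α _ => ?_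
          calc _ = ∑ δ, ∑ γ, ∑ β, ∑ j, ∑ i, ∑ l, ∑ m,
                f (δ, α) l i * f (β, γ) j m * D i j m l :=
                Finset.sum_congr rfl fun δ _ => Finset.sum_comm
            _ = ∑ γ, ∑ δ, ∑ β, ∑ j, ∑ i, ∑ l, ∑ m,
                f (δ, α) l i * f (β, γ) j m * D i j m l := Finset.sum_comm
            _ = ∑ γ, ∑ β, ∑ δ, ∑ j, ∑ i, ∑ l, ∑ m,
                f (δ, α) l i * f (β, γ) j m * D i j m l :=
                Finset.sum_congr rfl fun γ _ => Finset.sum_comm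
            _ = ∑ β, ∑ γ, ∑ δ, ∑ j, ∑ i, ∑ l, ∑ m,
                f (δ, α) l i * f (β, γ) j m * D i j m l := Finset.sum_comm
            _ = _ := ?_
          refine Finset.sum_congr rfl fun β _ => Finset.sum_congr rfl fun γ _ =>
            Finset.sum_congr rfl fun δ _ => ?_
          rw [Finset.sum_comm]
          refine Finset.sum_congr rfl fun i _ => Finset.sum_congr rfl fun j _ => ?_
          rw [Finset.sum_comm]
          refine Finset.sum_congr rfl fun m _ => Finset.sum_congr rfl fun l _ => ?_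
          simp only [f]
          ring
  have h1 : ∑ j, ∑ i, ∑ l, ∑ m, (K j i * K l m - K l i * K j m) * D i j m l =
      ∑ j, ∑ i, ∑ l, ∑ m, K j i * K l m * D i j m l -
      ∑ j, ∑ i, ∑ l, ∑ m, K l i * K j m * D i j m l := by
    simp only [← Finset.sum_sub_distrib]
    refine Finset.sum_congr rfl fun i _ => Finset.sum_congr rfl fun j _ =>
      Finset.sum_congr rfl fun m _ => Finset.sum_congr rfl fun l _ => ?_
    ring
  rw [h1, hA, hB]
  simp only [← Finset.sum_sub_distrib]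
  refine Finset.sum_congr rfl fun i _ => Finset.sum_congr rfl fun j _ =>
    Finset.sum_congr rfl fun m _ => Finset.sum_congr rfl fun l _ => ?_
  ring

end alg

theorem st2 (hWIRT : S_WIRT) (hLMF : S_LMF) (hLIMK : S_LIMK) (hKFE : S_KFE) (hKFB : S_KFB)
    (hEXG : S_EXG) (hKES : S_KES.{u}) (hBNDK : S_BNDK.{u}) (hDETI : S_DETI.{u})
    (hST2A : S_ST2A.{u}) : S_ST2.{u} := by
  intro b k T G _ R H Φ g hF κ hκ
  have hTo : IsOpen T := hF.ket.et.isOpen
  have hK : ∀ s : ℝ, 0 ≤ s → KEt T R fun x => H x + (s : ℂ) • LM Φ x := (hKES hF).1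
  let D : Cn (b + k) → Fin (b + k) → Fin (b + k) → Fin (b + k) → Fin (b + k) → ℂ :=
    fun x i j m l => cd i (cdb j fun y => g y m l) x
  have hDc : ∀ i j m l, ContinuousOn (fun x => D x i j m l) T := by
    intro i j m l
    have h1 := ((hWIRT T hTo (fun y => g y m l) (fun y => g y m l) (hF.smg m l) (hF.smg m l)).1 j).2
    have h2 := ((hWIRT T hTo _ _ h1 h1).1 i).1
    exact h2.continuousOn
  let V : Matrix (Fin (b + k)) (Fin (b + k)) ℂ → Cn (b + k) → ℂ := fun K x =>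
    ∑ j, ∑ i, ∑ l, ∑ m, (K j i * K l m - K l i * K j m) * D x i j m l
  have hV : ContinuousOn (fun p : Matrix (Fin (b + k)) (Fin (b + k)) ℂ × Cn (b + k) => V p.1 p.2)
      (univ ×ˢ T) := by
    have hent : ∀ i j, ContinuousOn
        (fun p : Matrix (Fin (b + k)) (Fin (b + k)) ℂ × Cn (b + k) => p.1 i j) (univ ×ˢ T) := by
      intro i j
      have : Continuous (fun p : Matrix (Fin (b + k)) (Fin (b + k)) ℂ × Cn (b + k) => p.1 i j) := by
        fun_prop
      exact this.continuousOn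
    change ContinuousOn (fun p : Matrix (Fin (b + k)) (Fin (b + k)) ℂ × Cn (b + k) =>
      ∑ j, ∑ i, ∑ l, ∑ m, (p.1 j i * p.1 l m - p.1 l i * p.1 j m) * D p.2 i j m l) (univ ×ˢ T)
    refine continuousOn_finsetSum _ fun j _ => ?_
    refine continuousOn_finsetSum _ fun i _ => ?_
    refine continuousOn_finsetSum _ fun l _ => ?_
    refine continuousOn_finsetSum _ fun m _ => ?_
    refine ContinuousOn.mul ?_ ?_
    · exact ((hent j i).mul (hent l m)).sub ((hent l i).mul (hent j m))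
    · exact (hDc i j m l).comp continuous_snd.continuousOn (fun p hp => hp.2)
  have hherm : ∀ x ∈ T, (g x).IsHermitian := fun x hx => (hF.posg x hx).1
  have hE : ∀ s : ℝ, 0 ≤ s → ∀ x ∈ T, (E2 (fun x => H x + (s : ℂ) • LM Φ x) g x).re =
      (H x + (s : ℂ) • LM Φ x).det.re * (V (H x + (s : ℂ) • LM Φ x)⁻¹ x).re := by
    intro s hs x hx
    have h1 : (H x + (s : ℂ) • LM Φ x).det.im = 0 := ((hDETI T R _ (hK s hs)).1 x hx).1
    unfold E2
    rw [Complex.mul_re, h1, zero_mul, sub_zero]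
  obtain ⟨F, hF1, hF2⟩ := core hLMF hLIMK hKFE hKFB hBNDK hF hκ V hV hK (by
    intro s hs U τ hτ x hx
    have hs0 : (0 : ℝ) ≤ s := zero_le_one.trans hs
    obtain ⟨hU, -, γ, hγ⟩ := id hτ
    have hm := hF.ket.et.mem _ _ _ (hγ x hx)
    have h1 := (hST2A (hK s hs0) hherm hF.smg hF.ginv κ hκ).2 U τ hτ x hx
    rw [hE s hs0 x hm.1, hE s hs0 (τ x) hm.2] at h1
    exact h1) (by
    intro s hs
    have hs0 : (0 : ℝ) ≤ s := zero_le_one.trans hs
    have h1 := (hST2A (hK s hs0) hherm hF.smg hF.ginv κ hκ).1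
    rw [← h1]
    refine setIntegral_congr_fun hTo.measurableSet fun x hx => ?_
    rw [hE s hs0 x hx])
  refine ⟨F, hF1, fun W L w v hfr hWT x hx => ?_⟩
  rw [hF2 W L w v hfr hWT x hx, mul_div_assoc]
  congr 1
  have h1 : V (Kf H v x) x = ∑ α, ∑ β, ∑ γ, ∑ δ,
      ((gram H v x)⁻¹ β α * (gram H v x)⁻¹ δ γ - (gram H v x)⁻¹ δ α * (gram H v x)⁻¹ β γ) *
        X4 (fun α => v α x) (D x) α β γ δ :=
    contr (fun α => v α x) (D x) (fun α β => (gram H v x)⁻¹ α β) (Kf H v x) (fun j l => rfl)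
  have h2 : ∑ α, ∑ β, ∑ γ, ∑ δ, (gram H v x)⁻¹ β α * (gram H v x)⁻¹ δ γ *
      (Dvb (v β) (fun y => TRN g v y α γ δ) x - Dvb (v δ) (fun y => TRN g v y α γ β) x) =
      2 * V (Kf H v x) x := by
    rw [h1, ← sumE (fun α β => (gram H v x)⁻¹ α β) (X4 (fun α => v α x) (D x))]
    refine Finset.sum_congr rfl fun α _ => Finset.sum_congr rfl fun β _ =>
      Finset.sum_congr rfl fun γ _ => Finset.sum_congr rfl fun δ _ => ?_
    congr 1
    rw [(hEXG hfr g (fun i j => (hF.smg i j).mono hWT) x hx α γ).2 β δ]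
    exact X4_E (fun α => v α x) (D x) α β γ δ
  rw [h2, Complex.mul_re]
  norm_num

end Pool.Agent.Helper52.RK
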