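import Pool.Agent.Helper52.RK.AFC

/-! # AFFC. Affine coordinates on the leaves -/

open Complex Metric Set Filter Topology MeasureTheory
open scoped ContDiff ComplexConjugate ComplexOrder Manifold Matrix

namespace Pool.Agent.Helper52.RK

open Pool.Agent.Helper95.Lin Pool.Agent.Helper16.Abund Pool.Agent.Helper92.Orb
  Pool.Agent.Helper10.SP Pool.Agent.Helper95.RK

variable {b k : ℕ}

/-- The metric in the affine frame. -/
noncomputable def Mg (g e : Cn (b + k) → Matrix (Fin k) (Fin k) ℂ) (y : Cn (b + k)) :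
    Matrix (Fin k) (Fin k) ℂ := (e y)⁻¹ * g y * ((e y)⁻¹)ᴴ

theorem Mg_props (hWIRT : S_WIRT) {D : Set (Cn (b + k))} (hD : IsOpen D)
    {g e : Cn (b + k) → Matrix (Fin k) (Fin k) ℂ} {Φ : Cn (b + k) → ℝ} (hF : FlatG D g Φ)
    (he : ∀ i j, DifferentiableOn ℂ (fun x => e x i j) D) (hdet : ∀ x ∈ D, (e x).det ≠ 0)
    (hee : ∀ x ∈ D, ∀ i j l, fderiv ℂ (fun y => e y j l) x (ef b i) =
        (1 / 2) * (chrM g i x * e x) j l) :
    (∀ i j, ContDiffOn ℝ ∞ (fun x => Mg g e x i j) D) ∧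
    ∀ x ∈ D, ∀ (p i j : Fin k), cd (Fin.natAdd b p) (fun y => Mg g e y i j) x = 0 ∧
      cdb (Fin.natAdd b p) (fun y => Mg g e y i j) x = 0 := by
  have hinv : ∀ i j, DifferentiableOn ℂ (fun x => (e x)⁻¹ i j) D := diffOn_inv he hdet
  have hinvs : ∀ i j, ContDiffOn ℝ ∞ (fun x => (e x)⁻¹ i j) D := fun i j =>
    holo_contDiffOn_real hD (hinv i j)
  have hcjs : ∀ i j, ContDiffOn ℝ ∞ (fun x => ((e x)⁻¹)ᴴ i j) D := fun i j => by
    have h1 : (fun x => ((e x)⁻¹)ᴴ i j) = fun x => conj ((e x)⁻¹ j i) := rfl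
    rw [h1]
    exact Complex.conjCLE.contDiff.comp_contDiffOn (hinvs j i)
  have hAg : ∀ i j, ContDiffOn ℝ ∞ (fun x => ((e x)⁻¹ * g x) i j) D := by
    intro i j
    have h1 : (fun x => ((e x)⁻¹ * g x) i j) = fun x => ∑ m, (e x)⁻¹ i m * g x m j := by
      funext x
      rw [Matrix.mul_apply]
    rw [h1]
    exact ContDiffOn.sum fun m _ => (hinvs i m).mul (hF.smooth m j)
  have hMs : ∀ i j, ContDiffOn ℝ ∞ (fun x => Mg g e x i j) D := by
    intro i j
    have h1 : (fun x => Mg g e x i j) = fun x => ∑ m, ((e x)⁻¹ * g x) i m * ((e x)⁻¹)ᴴ m j := by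
      funext x
      rw [Mg, Matrix.mul_apply]
    rw [h1]
    exact ContDiffOn.sum fun m _ => (hAg i m).mul (hcjs m j)
  have dat : ∀ {f : Cn (b + k) → ℂ}, ContDiffOn ℝ ∞ f D → ∀ x ∈ D, DifferentiableAt ℝ f x :=
    fun hf x hx => (hf.contDiffAt (hD.mem_nhds hx)).differentiableAt (by simp)
  have hcd0 : ∀ x ∈ D, ∀ p : Fin k, cdM (Fin.natAdd b p) (Mg g e) x = 0 := by
    intro x hx p
    have hu : IsUnit (e x).det := isUnit_iff_ne_zero.2 (hdet x hx)
    -- derivative of e
    have h1 : cdM (Fin.natAdd b p) e x = chrM g p x * e x := by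
      ext j l
      have h2 := Pool.Agent.Helper58.SP.cd_holo hD (he j l) hx (Fin.natAdd b p)
      have h3 := hee x hx p j l
      change cd (Fin.natAdd b p) (fun y => e y j l) x = _
      rw [h2]
      have h4 : ef b p = (Pi.single (Fin.natAdd b p) 1 : Cn (b + k)) := rfl
      rw [← h4, h3]
      ring
    -- derivative of the inverse
    have h5 : cdM (Fin.natAdd b p) (fun y => (e y)⁻¹) x = - ((e x)⁻¹ * chrM g p x) := by
      have h6 := cdM_mul (A := fun y => (e y)⁻¹) (B := e) (x := x) (fun i j => dat (hinvs i j) x hx)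
        (fun i j => dat (holo_contDiffOn_real hD (he i j)) x hx) (Fin.natAdd b p)
      have h7 : cdM (Fin.natAdd b p) (fun y => (e y)⁻¹ * e y) x = 0 := by
        have h8 : (fun y => (e y)⁻¹ * e y) =ᶠ[𝓝 x] fun _ => 1 := by
          filter_upwards [hD.mem_nhds hx] with y hy
          exact Matrix.nonsing_inv_mul _ (isUnit_iff_ne_zero.2 (hdet y hy))
        rw [cdM_congr h8]
        ext i j
        simp [cdM, cd]
      rw [h7, h1] at h6
      have h9 : (cdM (Fin.natAdd b p) (fun y => (e y)⁻¹) x + (e x)⁻¹ * chrM g p x) * e x = 0 := by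
        rw [add_mul, Matrix.mul_assoc]
        exact h6.symm
      have h10 := congrArg (fun X => X * (e x)⁻¹) h9
      simp only [Matrix.mul_assoc, Matrix.mul_nonsing_inv _ hu, Matrix.mul_one,
        Matrix.zero_mul] at h10
      exact eq_neg_of_add_eq_zero_left h10
    have h11 : cdM (Fin.natAdd b p) (fun y => (e y)⁻¹ * g y) x = 0 := by
      have h12 := cdM_mul (A := fun y => (e y)⁻¹) (B := g) (x := x)
        (fun i j => dat (hinvs i j) x hx) (fun i j => dat (hF.smooth i j) x hx) (Fin.natAdd b p)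
      rw [h12, h5, cdM_g hF hx, Matrix.neg_mul, Matrix.mul_assoc, neg_add_cancel]
    have h13 : cdM (Fin.natAdd b p) (fun y => ((e y)⁻¹)ᴴ) x = 0 := by
      ext i j
      change cd (Fin.natAdd b p) (fun y => conj ((e y)⁻¹ j i)) x = 0
      have hw := hWIRT D hD _ _ (hinvs j i) (hinvs j i)
      rw [(hw.2.2.2.1 (Fin.natAdd b p) x hx).1, hw.2.2.2.2.2.2 (hinv j i) (Fin.natAdd b p) x hx,
        map_zero]
    have h14 := cdM_mul (A := fun y => (e y)⁻¹ * g y) (B := fun y => ((e y)⁻¹)ᴴ) (x := x)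
      (fun i j => dat (hAg i j) x hx) (fun i j => dat (hcjs i j) x hx) (Fin.natAdd b p)
    change cdM (Fin.natAdd b p) (fun y => (e y)⁻¹ * g y * ((e y)⁻¹)ᴴ) x = 0
    rw [h14, h11, h13, Matrix.zero_mul, Matrix.mul_zero, add_zero]
  refine ⟨hMs, fun x hx p i j => ⟨congrFun (congrFun (hcd0 x hx p) i) j, ?_⟩⟩
  have hherm : (fun y => Mg g e y i j) =ᶠ[𝓝 x] fun y => conj (Mg g e y j i) := by
    filter_upwards [hD.mem_nhds hx] with y hy
    have h1 : (Mg g e y)ᴴ = Mg g e y := by
      rw [Mg, Matrix.conjTranspose_mul, Matrix.conjTranspose_mul,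
        Matrix.conjTranspose_conjTranspose, (hF.posDef y hy).1, Matrix.mul_assoc]
    have h2 := congrFun (congrFun h1 i) j
    rw [← h2]
    rfl
  have h3 : cdb (Fin.natAdd b p) (fun y => Mg g e y i j) x =
      cdb (Fin.natAdd b p) (fun y => conj (Mg g e y j i)) x := by
    unfold cdb
    rw [hherm.fderiv_eq]
  rw [h3]
  have hw := hWIRT D hD _ _ (hMs j i) (hMs j i)
  rw [(hw.2.2.2.1 (Fin.natAdd b p) x hx).2]
  have h4 : cd (Fin.natAdd b p) (fun y => Mg g e y j i) x = 0 :=
    congrFun (congrFun (hcd0 x hx p) j) i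
  rw [h4, map_zero]

theorem FlatG.mono' {W W' : Set (Cn (b + k))} {g : Cn (b + k) → Matrix (Fin k) (Fin k) ℂ}
    {Φ : Cn (b + k) → ℝ} (h : FlatG W g Φ) (hs : W' ⊆ W) : FlatG W' g Φ :=
  ⟨fun i j => (h.smooth i j).mono hs, fun x hx => h.posDef x (hs hx),
    fun x hx => h.kah x (hs hx), fun x hx => h.flat x (hs hx), fun x hx => h.vol x (hs hx)⟩

/-- AFFC. -/
theorem affc (hWIRT : S_WIRT) (hPF : S_PFAFF) : S_AFFC := by
  intro b k r hr g Φ hF hB
  obtain ⟨r1, hr1, t, e, hsubW, ht, he, ht0, he0, het, hee⟩ := frame hWIRT hPF hr hF hB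
  have hdetc : ContinuousOn (fun x => (e x).det) (ball 0 r1) := (diffOn_det he).continuousOn
  obtain ⟨D, hDdef⟩ : ∃ D : Set (Cn (b + k)), D = ball 0 r1 ∩ (fun x => (e x).det) ⁻¹' {0}ᶜ :=
    ⟨_, rfl⟩
  have hD : IsOpen D := by
    rw [hDdef]
    exact hdetc.isOpen_inter_preimage isOpen_ball isOpen_compl_singleton
  have hDb : ∀ x ∈ D, x ∈ ball (0 : Cn (b + k)) r1 := fun x hx => by
    rw [hDdef] at hx
    exact hx.1
  have hDe : ∀ x ∈ D, (e x).det ≠ 0 := fun x hx => by
    rw [hDdef] at hx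
    exact hx.2
  have h0D : (0 : Cn (b + k)) ∈ D := by
    rw [hDdef]
    refine ⟨mem_ball_self hr1, ?_⟩
    change (e 0).det ≠ 0
    rw [he0, Matrix.det_one]
    exact one_ne_zero
  have hDW : D ⊆ prodK (ball (0 : Cn b) r) (ball (0 : Cn k) r) := fun x hx =>
    hsubW (hDb x hx)
  have hDbs : D ⊆ ball (0 : Cn (b + k)) r1 := fun x hx => hDb x hx
  obtain ⟨hMs, hM0⟩ := Mg_props hWIRT hD (FlatG.mono' hF hDW) (fun i j => (he i j).mono hDbs) hDe
    (fun x hx => hee x (hDb x hx))
  -- the coordinates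
  obtain ⟨F, hFe⟩ : ∃ F : Cn (b + k) → Cn (b + k), F = fun x => ptL b k (bsL b k x, t x) :=
    ⟨_, rfl⟩
  obtain ⟨L, hL⟩ : ∃ L : Cn (b + k) → Cn (b + k) →L[ℂ] Cn (b + k),
      L = fun x => (ptL b k).comp ((bsL b k).prod (fderiv ℂ t x)) := ⟨_, rfl⟩
  have hLv : ∀ x v, L x v = ptK (base v) (fderiv ℂ t x v) := fun x v => by
    rw [hL]
    rfl
  have hFpt : ∀ x, F x = ptK (base x) (t x) := fun x => by
    rw [hFe]
    rfl
  have hF' : ∀ x ∈ D, HasFDerivAt F (L x) x := by
    intro x hx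
    have h1 : HasFDerivAt t (fderiv ℂ t x) x :=
      (ht.differentiableAt (isOpen_ball.mem_nhds (hDb x hx))).hasFDerivAt
    have h2 : HasFDerivAt (fun x => (bsL b k x, t x)) ((bsL b k).prod (fderiv ℂ t x)) x :=
      (bsL b k).hasFDerivAt.prodMk h1
    rw [hFe, hL]
    exact (ptL b k).hasFDerivAt.comp x h2
  have hkey : ∀ x ∈ D, ∀ v : Cn (b + k), base v = 0 →
      fderiv ℂ t x v = fun l => ∑ p, fib v p * e x p l := by
    intro x hx v hv
    funext l
    nth_rewrite 1 [eq_sum_ef hv]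
    rw [map_sum, Finset.sum_apply]
    refine Finset.sum_congr rfl fun p _ => ?_
    rw [map_smul, Pi.smul_apply, het x (hDb x hx) p l, smul_eq_mul]
  have hdet : ∀ x ∈ D, (L x).det ≠ 0 := by
    intro x hx h0
    have h1 := LinearMap.bot_lt_ker_of_det_eq_zero (f := ((L x : Cn (b + k) →L[ℂ] Cn (b + k)) :
      Cn (b + k) →ₗ[ℂ] Cn (b + k))) h0
    obtain ⟨v, hv, hv0⟩ := Submodule.exists_mem_ne_zero_of_ne_bot h1.ne'
    have hv1 : L x v = 0 := hv
    rw [hLv] at hv1
    have hvb : base v = 0 := by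
      have := congrArg base hv1
      rwa [base_ptK, base_zero'] at this
    have hvf : fderiv ℂ t x v = 0 := by
      have := congrArg fib hv1
      rwa [fib_ptK, fib_zero'] at this
    rw [hkey x hx v hvb] at hvf
    have h2 : fib v ᵥ* e x = 0 := by
      funext l
      have := congrFun hvf l
      simpa only [Matrix.vecMul, dotProduct, Pi.zero_apply] using this
    have h3 := Matrix.eq_zero_of_vecMul_eq_zero (hDe x hx) h2
    apply hv0
    apply ext_base_fib
    · rw [hvb, base_zero']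
    · rw [h3, fib_zero']
  have htd' : DifferentiableOn ℂ (fderiv ℂ t) (ball (0 : Cn (b + k)) r1) :=
    holo_fderiv isOpen_ball ht
  have hstrict : HasStrictFDerivAt F (L 0) 0 := by
    refine hasStrictFDerivAt_of_hasFDerivAt_of_continuousAt (f' := L) ?_ ?_
    · filter_upwards [hD.mem_nhds h0D] with x hx using hF' x hx
    · have h1 : ContinuousAt (fderiv ℂ t) 0 :=
        (htd'.continuousOn).continuousAt (isOpen_ball.mem_nhds (hDb 0 h0D))
      have h2 : Continuous fun T : Cn (b + k) →L[ℂ] Cn k => (ptL b k).comp ((bsL b k).prod T) := by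
        have h3 : Continuous fun T : Cn (b + k) →L[ℂ] Cn k => (bsL b k).prod T := by
          have h4 : (fun T : Cn (b + k) →L[ℂ] Cn k => (bsL b k).prod T) = fun T =>
              (ContinuousLinearMap.inl ℂ (Cn b) (Cn k)).comp (bsL b k) +
                (ContinuousLinearMap.inr ℂ (Cn b) (Cn k)).comp T := by
            funext T
            refine ContinuousLinearMap.ext fun v => ?_
            refine Prod.ext ?_ ?_ <;> simp
          rw [h4]
          exact continuous_const.add (continuous_const.clm_comp continuous_id)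
        exact continuous_const.clm_comp h3
      rw [hL]
      exact h2.continuousAt.comp h1
  have hdet0 : (L 0).det ≠ 0 := hdet 0 h0D
  have hstr : HasStrictFDerivAt F ((ContinuousLinearMap.toContinuousLinearEquivOfDetNeZero _
      hdet0 : Cn (b + k) ≃L[ℂ] Cn (b + k)) : Cn (b + k) →L[ℂ] Cn (b + k)) 0 := by
    rw [ContinuousLinearMap.coe_toContinuousLinearEquivOfDetNeZero]
    exact hstrict
  set E := hstr.toOpenPartialHomeomorph F with hE
  have hEF : ∀ x, E x = F x := fun x => by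
    rw [hE, hstr.toOpenPartialHomeomorph_coe]
  have h0s : (0 : Cn (b + k)) ∈ E.source := hstr.mem_toOpenPartialHomeomorph_source
  have hF0 : F 0 = 0 := by
    rw [hFpt, ht0, base_zero', ptK_zero]
  have h0t : (0 : Cn (b + k)) ∈ E.target := by
    have := E.map_source h0s
    rwa [hEF, hF0] at this
  have hsymm0 : E.symm 0 = 0 := by
    have := E.left_inv h0s
    rwa [hEF, hF0] at this
  have hopen : IsOpen (E.target ∩ E.symm ⁻¹' D) := E.isOpen_inter_preimage_symm hD
  obtain ⟨ρ, hρ, hρs⟩ := Metric.isOpen_iff.1 hopen 0 ⟨h0t, by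
    rw [mem_preimage, hsymm0]
    exact h0D⟩
  obtain ⟨σ, hσ⟩ : ∃ σ : Cn (b + k) → Cn (b + k), σ = E.symm := ⟨_, rfl⟩
  have hball : prodK (ball (0 : Cn b) ρ) (ball (0 : Cn k) ρ) = ball (0 : Cn (b + k)) ρ := by
    rw [ball_prodK]
    rfl
  have hsub : ∀ x ∈ ball (0 : Cn (b + k)) ρ, x ∈ E.target ∧ σ x ∈ D := by
    intro x hx
    rw [hσ]
    exact hρs hx
  have hFσ : ∀ x ∈ ball (0 : Cn (b + k)) ρ, F (σ x) = x := by
    intro x hx
    rw [hσ, ← hEF]
    exact E.right_inv (hsub x hx).1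
  have hder : ∀ (x : Cn (b + k)) (hx : x ∈ ball (0 : Cn (b + k)) ρ),
      HasFDerivAt σ (((L (σ x)).toContinuousLinearEquivOfDetNeZero
        (hdet _ (hsub x hx).2)).symm : Cn (b + k) →L[ℂ] Cn (b + k)) x := by
    intro x hx
    have h1 := (hsub x hx).1
    have h2 : HasFDerivAt E ((((L (σ x)).toContinuousLinearEquivOfDetNeZero
        (hdet _ (hsub x hx).2)) : Cn (b + k) ≃L[ℂ] Cn (b + k)) : Cn (b + k) →L[ℂ] Cn (b + k))
        (E.symm x) := by
      rw [ContinuousLinearMap.coe_toContinuousLinearEquivOfDetNeZero]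
      have h3 := hF' _ (hsub x hx).2
      have heq : (E : Cn (b + k) → Cn (b + k)) = F := funext hEF
      rw [heq]
      rw [hσ] at h3 ⊢
      exact h3
    have h4 := E.hasFDerivAt_symm h1 h2
    have h5 : (σ : Cn (b + k) → Cn (b + k)) = E.symm := hσ
    rw [← h5] at h4
    exact h4
  have hLσ : ∀ x ∈ ball (0 : Cn (b + k)) ρ, ∀ v, L (σ x) (fderiv ℂ σ x v) = v := by
    intro x hx v
    rw [(hder x hx).fderiv]
    have h1 := ((L (σ x)).toContinuousLinearEquivOfDetNeZero
      (hdet _ (hsub x hx).2)).apply_symm_apply v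
    exact h1
  have hbase : ∀ x ∈ ball (0 : Cn (b + k)) ρ, base (σ x) = base x := by
    intro x hx
    have h1 := congrArg base (hFσ x hx)
    rwa [hFpt, base_ptK] at h1
  have hbder : ∀ x ∈ ball (0 : Cn (b + k)) ρ, ∀ v, base v = 0 → base (fderiv ℂ σ x v) = 0 := by
    intro x hx v hv
    have h1 := congrArg base (hLσ x hx v)
    rw [hLv, base_ptK, hv] at h1
    exact h1
  have hJ : ∀ x ∈ ball (0 : Cn (b + k)) ρ, Jfq σ x = (e (σ x))⁻¹ := by
    intro x hx
    have h1 : Jfq σ x * e (σ x) = 1 := by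
      ext i l
      have h2 := congrArg fib (hLσ x hx (ef b i))
      rw [hLv, fib_ptK, hkey _ (hsub x hx).2 _ (hbder x hx _ (base_ef i)), fib_ef] at h2
      have h3 := congrFun h2 l
      rw [Matrix.mul_apply]
      have h4 : (1 : Matrix (Fin k) (Fin k) ℂ) i l = (Pi.single i 1 : Cn k) l := by
        rw [Matrix.one_apply, Pi.single_apply]
        simp only [eq_comm]
      rw [h4, ← h3]
      rfl
    exact (Matrix.inv_eq_left_inv h1).symm
  have hσd : DifferentiableOn ℂ σ (ball (0 : Cn (b + k)) ρ) := fun x hx =>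
    (hder x hx).differentiableAt.differentiableWithinAt
  have hz0 : ∀ z ∈ ball (0 : Cn b) ρ, (ptK z 0 : Cn (b + k)) ∈ ball (0 : Cn (b + k)) ρ := by
    intro z hz
    rw [← hball]
    exact ⟨by rwa [base_ptK], by rw [fib_ptK]; exact mem_ball_self hρ⟩
  refine ⟨ρ, hρ, σ, fun z => Mg g e (σ (ptK z 0)), ?_⟩
  rw [hball]
  refine ⟨hσd, ?_, ?_, ?_, ?_, ?_⟩
  · intro x hx y hy hxy
    rw [← hFσ x hx, ← hFσ y hy, hxy]
  · intro x hx
    exact hDW (hsub x hx).2
  · rw [hσ]
    exact hsymm0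
  · intro i j
    have h1 : ContDiffOn ℝ ∞ (fun x => Mg g e (σ x) i j) (ball (0 : Cn (b + k)) ρ) :=
      (hMs i j).comp (holo_contDiffOn_real isOpen_ball hσd) (fun x hx => (hsub x hx).2)
    have h2 : ContDiff ℝ ∞ (fun z : Cn b => (ptK z 0 : Cn (b + k))) :=
      ((zL b k).restrictScalars ℝ).contDiff
    exact h1.comp h2.contDiffOn (fun z hz => hz0 z hz)
  · intro x hx
    refine ⟨?_, hbase x hx, ?_⟩
    · rw [(hder x hx).fderiv]
      intro h0
      set T := (L (σ x)).toContinuousLinearEquivOfDetNeZero (hdet _ (hsub x hx).2) with hT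
      have h1 := LinearMap.bot_lt_ker_of_det_eq_zero (f := (((T.symm : Cn (b + k) ≃L[ℂ]
        Cn (b + k)) : Cn (b + k) →L[ℂ] Cn (b + k)) : Cn (b + k) →ₗ[ℂ] Cn (b + k))) h0
      obtain ⟨v, hv, hv0⟩ := Submodule.exists_mem_ne_zero_of_ne_bot h1.ne'
      have hv1 : T.symm v = 0 := hv
      apply hv0
      have := congrArg T hv1
      rwa [T.apply_symm_apply, map_zero] at this
    · rw [hJ x hx]
      change Mg g e (σ x) = _
      have hx' : base x ∈ ball (0 : Cn b) ρ ∧ fib x ∈ ball (0 : Cn k) ρ := by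
        rw [← hball] at hx
        exact hx
      ext i j
      have hmem : ∀ w ∈ ball (0 : Cn k) ρ, ptK (base x) w ∈ ball (0 : Cn (b + k)) ρ := by
        intro w hw
        rw [← hball]
        exact ⟨by rw [base_ptK]; exact hx'.1, by rwa [fib_ptK]⟩
      have hcomp : ∀ w ∈ ball (0 : Cn k) ρ, HasFDerivAt (fun y => Mg g e (σ y) i j)
          ((fderiv ℝ (fun y => Mg g e y i j) (σ (ptK (base x) w))).comp
            ((fderiv ℂ σ (ptK (base x) w)).restrictScalars ℝ)) (ptK (base x) w) := by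
        intro w hw
        have h1 := (hσd.differentiableAt (isOpen_ball.mem_nhds (hmem w hw))).hasFDerivAt
        have h2 : DifferentiableAt ℝ (fun y => Mg g e y i j) (σ (ptK (base x) w)) :=
          ((hMs i j).contDiffAt (hD.mem_nhds (hsub _ (hmem w hw)).2)).differentiableAt (by simp)
        exact h2.hasFDerivAt.comp _ (h1.restrictScalars ℝ)
      have h5 := fib_const (f := fun y => Mg g e (σ y) i j) (z := base x) isOpen_ball
        (convex_ball (0 : Cn k) ρ).isPreconnected (fun w hw => (hcomp w hw).differentiableAt)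
        (fun w hw u hu => by
          rw [(hcomp w hw).fderiv]
          exact fder_zero (fun p => (hM0 _ (hsub _ (hmem w hw)).2 p i j).1)
            (fun p => (hM0 _ (hsub _ (hmem w hw)).2 p i j).2) (hbder _ (hmem w hw) u hu))
        hx'.2 (mem_ball_self hρ)
      rw [ptK_base_fib] at h5
      exact h5

end Pool.Agent.Helper52.RK
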