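import Pool.Agent.Helper52.RK.AFC
import Pool.Agent.Helper16.RK.TriMap
import Pool.Agent.Helper55.SP.AFFT

/-! # AFFTK. Transition maps between special charts are affine in the fibre coordinates -/

open Complex Metric Set Filter Topology MeasureTheory
open scoped ContDiff ComplexConjugate ComplexOrder Manifold Matrix

namespace Pool.Agent.Helper52.RK

open Pool.Agent.Helper95.Lin Pool.Agent.Helper16.Abund Pool.Agent.Helper92.Orb
  Pool.Agent.Helper10.SP Pool.Agent.Helper95.RK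

variable {b k : ℕ}

/-- A holomorphic matrix with constant Hilbert-Schmidt norm is constant. -/
theorem hs_const {Δ : Set (Cn k)} (hΔ : IsOpen Δ) (hc : IsPreconnected Δ)
    {X : Cn k → Matrix (Fin k) (Fin k) ℂ}
    (hX : ∀ i j, DifferentiableOn ℂ (fun w => X w i j) Δ) {w₀ : Cn k} (hw₀ : w₀ ∈ Δ)
    (h : ∀ w ∈ Δ, X w * (X w)ᴴ = X w₀ * (X w₀)ᴴ) {w : Cn k} (hw : w ∈ Δ) : X w = X w₀ := by
  obtain ⟨f, hf⟩ : ∃ f : Cn k → EuclideanSpace ℂ (Fin k × Fin k),
      f = fun w => (WithLp.toLp 2 fun p => X w p.1 p.2) := ⟨_, rfl⟩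
  have hfd : DifferentiableOn ℂ f Δ := by
    rw [hf]
    have h1 : DifferentiableOn ℂ (fun w => (fun p : Fin k × Fin k => X w p.1 p.2)) Δ :=
      differentiableOn_pi.2 fun p => hX p.1 p.2
    exact (PiLp.continuousLinearEquiv 2 ℂ (fun _ : Fin k × Fin k => ℂ)).symm.differentiable.comp_differentiableOn h1
  have hfn : ∀ w, ‖f w‖ ^ 2 = (Matrix.trace (X w * (X w)ᴴ)).re := by
    intro w
    rw [EuclideanSpace.norm_sq_eq, Fintype.sum_prod_type]
    simp only [Matrix.trace, Matrix.diag_apply, Matrix.mul_apply, Matrix.conjTranspose_apply,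
      Complex.re_sum]
    refine Finset.sum_congr rfl fun i _ => Finset.sum_congr rfl fun j _ => ?_
    rw [hf]
    simp only
    have h1 : X w i j * star (X w i j) = ((‖X w i j‖ ^ 2 : ℝ) : ℂ) := by
      rw [Complex.ofReal_pow]
      exact Complex.mul_conj' (X w i j)
    rw [h1, Complex.ofReal_re]
  have hmax : IsMaxOn (norm ∘ f) Δ w₀ := by
    intro w hw
    simp only [Function.comp_apply, Set.mem_ofPred_eq]
    have h1 : ‖f w‖ ^ 2 = ‖f w₀‖ ^ 2 := by
      rw [hfn, hfn, h w hw]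
    exact ((pow_left_inj₀ (norm_nonneg _) (norm_nonneg _) two_ne_zero).1 h1).le
  have h5 := Complex.eqOn_of_isPreconnected_of_isMaxOn_norm hc hΔ hfd hw₀ hmax hw
  ext i j
  have h6 : f w = f w₀ := h5
  have h7 : f w (i, j) = f w₀ (i, j) := by rw [h6]
  rw [hf] at h7
  exact h7

open scoped MatrixOrder in
theorem fac {H : Matrix (Fin k) (Fin k) ℂ} (h : H.PosDef) :
    ∃ B : Matrix (Fin k) (Fin k) ℂ, H = star B * B := by
  obtain ⟨B, hB⟩ := CStarAlgebra.nonneg_iff_eq_star_mul_self.mp h.posSemidef.nonneg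
  exact ⟨B, hB⟩

theorem hermi_dot (H : Matrix (Fin k) (Fin k) ℂ) (u v : Cn k) :
    hermi H u v = u ⬝ᵥ (H *ᵥ star v) := by
  unfold hermi
  simp only [dotProduct, Matrix.mulVec, Finset.mul_sum]
  refine Finset.sum_congr rfl fun i _ => Finset.sum_congr rfl fun j _ => ?_
  simp only [Pi.star_apply]
  have h1 : conj (v j) = star (v j) := rfl
  rw [h1]
  ring

theorem hermi_J (J H : Matrix (Fin k) (Fin k) ℂ) (u v : Cn k) :
    hermi H (Jᵀ *ᵥ u) (Jᵀ *ᵥ v) = hermi (J * H * Jᴴ) u v := by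
  rw [hermi_dot, hermi_dot, Matrix.star_mulVec, Matrix.mulVec_transpose,
    ← Matrix.dotProduct_mulVec, Matrix.mulVec_mulVec]
  congr 1
  rw [← Matrix.mulVec_mulVec, ← Matrix.mulVec_mulVec, ← Matrix.mulVec_mulVec]
  congr 2
  rw [← Matrix.mulVec_transpose]
  congr 1

/-- AFFTK. -/
theorem afftk (hWCH : S_WCH) : S_AFFTK := by
  intro b k U U' w₀ r hU hU' hr Ψ₁ Ψ₂ Hf₁ Hf₂ hΨ₁ hΨ₂ hpos hp1 hp2 τ hτ hτ2
  obtain ⟨hC, hLg⟩ := hWCH
  set Δ : Set (Cn k) := ball w₀ r with hΔ
  have hΔo : IsOpen Δ := isOpen_ball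
  have hw₀ : w₀ ∈ Δ := mem_ball_self hr
  have hΔc : IsPreconnected Δ := (convex_ball w₀ r).isPreconnected
  set W : Set (Cn (b + k)) := prodK U Δ with hWdef
  have hW : IsOpen W := isOpen_prodK hU hΔo
  have pt_mem : ∀ {z : Cn b} {w : Cn k}, z ∈ U → w ∈ Δ → (ptK z w : Cn (b + k)) ∈ W :=
    fun hz hw => ⟨by rwa [base_ptK], by rwa [fib_ptK]⟩
  have hτa : ∀ x ∈ W, DifferentiableAt ℂ τ x := fun x hx => hτ.differentiableAt (hW.mem_nhds hx)
  have hD : DifferentiableOn ℂ (fderiv ℂ τ) W := holo_fderiv hW hτ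
  -- the base component of the derivative in the fibre directions vanishes
  have hbase : ∀ x ∈ W, ∀ v : Cn (b + k), base v = 0 → base (fderiv ℂ τ x v) = 0 := by
    intro x hx v hv
    have h1 : lev (Ψ₁ ∘ (base : Cn (b + k) → Cn b)) x v = 0 := by
      have hb : DifferentiableOn ℂ (base : Cn (b + k) → Cn b) W :=
        (bsL b k).differentiable.differentiableOn
      have := ((hC U W hU hW base hb (fun y hy => hy.1)).2 Ψ₁ hΨ₁ x hx).1 v
      rw [this]
      have h2 : fderiv ℂ (base : Cn (b + k) → Cn b) x v = 0 := by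
        have h3 : HasFDerivAt (base : Cn (b + k) → Cn b) (bsL b k) x := (bsL b k).hasFDerivAt
        rw [h3.fderiv, bsL_apply, hv]
      rw [h2, Pool.Agent.Helper55.SP.lev_dir_zero]
    have hbτ : DifferentiableOn ℂ (fun y => base (τ y)) W :=
      (bsL b k).differentiable.comp_differentiableOn hτ
    have hmaps : MapsTo (fun y => base (τ y)) W U' := fun y hy => (hτ2 y hy).1
    have h4 := ((hC U' W hU' hW (fun y => base (τ y)) hbτ hmaps).2 Ψ₂ hΨ₂ x hx).1 v
    have h5 : fderiv ℂ (fun y => base (τ y)) x v = base (fderiv ℂ τ x v) := by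
      have h6 : HasFDerivAt (fun y => base (τ y)) ((bsL b k).comp (fderiv ℂ τ x)) x :=
        (bsL b k).hasFDerivAt.comp x (hτa x hx).hasFDerivAt
      rw [h6.fderiv]
      rfl
    rw [h5] at h4
    have hdet : DifferentiableOn ℂ (fun y => (fderiv ℂ τ y).det) W := by
      have h9 : (fun y => (fderiv ℂ τ y).det) = fun y =>
          (Matrix.of fun i j => fderiv ℂ τ y (Pi.single j 1) i).det := by
        funext y
        have h8 : (fderiv ℂ τ y).det = (LinearMap.toMatrix'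
          ((fderiv ℂ τ y) : Cn (b + k) →ₗ[ℂ] Cn (b + k))).det := (LinearMap.det_toMatrix' _).symm
        rw [h8]
        congr 1
      rw [h9]
      refine diffOn_det fun i j => ?_
      have h10 : DifferentiableOn ℂ (fun y => fderiv ℂ τ y (Pi.single j 1)) W :=
        hD.clm_apply (differentiableOn_const _)
      exact differentiableOn_pi.1 h10 i
    obtain ⟨hLs, hLz⟩ := hLg W hW (fun y => (fderiv ℂ τ y).det) hdet
      (fun y hy => (hτ2 y hy).2.1)
    have h11 : (Ψ₁ ∘ (base : Cn (b + k) → Cn b)) =ᶠ[𝓝 x] fun y =>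
        (Ψ₂ ∘ fun y => base (τ y)) y + Real.log (‖(fderiv ℂ τ y).det‖ ^ 2) := by
      filter_upwards [hW.mem_nhds hx] with y hy
      exact (hτ2 y hy).2.2.1
    rw [Pool.Agent.Helper9.Lin.lev_congr h11] at h1
    have h12 : ContDiffOn ℝ ∞ (Ψ₂ ∘ fun y => base (τ y)) W :=
      hΨ₂.comp (holo_contDiffOn_real hW hbτ) hmaps
    rw [Pool.Agent.Helper55.SP.lev_add hW h12 hLs hx, (hLz x hx).1 v, h4, add_zero] at h1
    by_contra hne
    exact absurd h1 (hpos _ (hτ2 x hx).1 _ hne).ne'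
  -- derivative along the fibre
  have hfib : ∀ z ∈ U, ∀ w ∈ Δ, HasFDerivAt (fun w => τ (ptK z w))
      ((fderiv ℂ τ (ptK z w)).comp (inL b k)) w := fun z hz w hw =>
    (hτa _ (pt_mem hz hw)).hasFDerivAt.comp w (hasFDerivAt_ptK_right z w)
  have hfibb : ∀ z ∈ U, ∀ w ∈ Δ, base (τ (ptK z w)) = base (τ (ptK z w₀)) := by
    intro z hz w hw
    have hd : ∀ s ∈ Δ, HasFDerivAt (fun s => base (τ (ptK z s))) (0 : Cn k →L[ℂ] Cn b) s := by
      intro s hs
      have h1 := (bsL b k).hasFDerivAt.comp s (hfib z hz s hs)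
      refine h1.congr_fderiv ?_
      refine ContinuousLinearMap.ext fun u => ?_
      exact hbase _ (pt_mem hz hs) (ptK 0 u) (base_ptK _ _)
    exact hΔo.is_const_of_fderiv_eq_zero hΔc
      (fun s hs => (hd s hs).differentiableAt.differentiableWithinAt)
      (fun s hs => (hd s hs).fderiv) hw hw₀
  obtain ⟨g, hg⟩ : ∃ g : Cn b → Cn b, g = fun z => base (τ (ptK z w₀)) := ⟨_, rfl⟩
  have hleft : ∀ z ∈ U, ∀ w ∈ Δ, HasFDerivAt (fun z => τ (ptK z w))
      ((fderiv ℂ τ (ptK z w)).comp (zL b k)) z := fun z hz w hw =>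
    (hτa _ (pt_mem hz hw)).hasFDerivAt.comp z (hasFDerivAt_ptK_left z w)
  have hgd : DifferentiableOn ℂ g U := by
    rw [hg]
    intro z hz
    exact ((bsL b k).hasFDerivAt.comp z (hleft z hz w₀ hw₀)).differentiableAt.differentiableWithinAt
  have hgz : ∀ z ∈ U, ∀ w ∈ Δ, ∀ e, base (fderiv ℂ τ (ptK z w) e) = fderiv ℂ g z (base e) := by
    intro z hz w hw e
    have h1 : g =ᶠ[𝓝 z] fun u => base (τ (ptK u w)) := by
      filter_upwards [hU.mem_nhds hz] with u hu
      rw [hg]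
      exact (hfibb u hu w hw).symm
    have h2 : HasFDerivAt (fun u => base (τ (ptK u w)))
        ((bsL b k).comp ((fderiv ℂ τ (ptK z w)).comp (zL b k))) z :=
      (bsL b k).hasFDerivAt.comp z (hleft z hz w hw)
    rw [h1.fderiv_eq, h2.fderiv]
    change _ = base (fderiv ℂ τ (ptK z w) (ptK (base e) 0))
    have h3 : e = ptK (base e) 0 + ptK 0 (fib e) := by
      rw [← ptK_add, add_zero, zero_add, ptK_base_fib]
    nth_rewrite 1 [h3]
    rw [map_add, base_add, hbase _ (pt_mem hz hw) _ (base_ptK _ _), add_zero]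
  have hfb : ∀ z ∈ U, ∀ w ∈ Δ, ∀ e, base e = 0 →
      fib (fderiv ℂ τ (ptK z w) e) = (Jfq τ (ptK z w))ᵀ *ᵥ fib e := by
    intro z hz w hw e he
    nth_rewrite 1 [eq_sum_ef he]
    rw [map_sum]
    funext p
    change (∑ q, fderiv ℂ τ (ptK z w) (fib e q • ef b q)) (Fin.natAdd b p) = _
    rw [Finset.sum_apply]
    simp only [Matrix.mulVec, dotProduct, Matrix.transpose_apply, map_smul, Pi.smul_apply,
      smul_eq_mul]
    refine Finset.sum_congr rfl fun q _ => ?_
    rw [mul_comm]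
    rfl
  have hdetf : ∀ z ∈ U, ∀ w ∈ Δ, (fderiv ℂ τ (ptK z w)).det =
      (fderiv ℂ g z).det * ((Jfq τ (ptK z w))ᵀ).det := fun z hz w hw =>
    Pool.Agent.Helper16.RK.det_blockK _ _ _ (hgz z hz w hw) (hfb z hz w hw)
  -- the fibre block is constant along the fibres
  have hJd : ∀ i p, DifferentiableOn ℂ (fun x => Jfq τ x i p) W := by
    intro i p
    have h1 : DifferentiableOn ℂ (fun x => fderiv ℂ τ x (ef b i)) W :=
      hD.clm_apply (differentiableOn_const _)
    exact differentiableOn_pi.1 h1 (Fin.natAdd b p)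
  have hJc : ∀ z ∈ U, ∀ w ∈ Δ, Jfq τ (ptK z w) = Jfq τ (ptK z w₀) := by
    intro z hz w hw
    have hgU : g z ∈ U' := by
      rw [hg]
      exact (hτ2 _ (pt_mem hz hw₀)).1
    obtain ⟨B, hB⟩ := fac (hp2 _ hgU)
    have hBu : IsUnit (star B).det := by
      have h1 : (Hf₂ (g z)).det ≠ 0 := (hp2 _ hgU).det_pos.ne'
      rw [hB, Matrix.det_mul] at h1
      exact isUnit_iff_ne_zero.2 (left_ne_zero_of_mul h1)
    have hrel : ∀ w ∈ Δ, (Jfq τ (ptK z w) * star B) * (Jfq τ (ptK z w) * star B)ᴴ = Hf₁ z := by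
      intro w hw
      have h1 := (hτ2 _ (pt_mem hz hw)).2.2.2
      have h2 : base (τ (ptK z w)) = g z := by
        rw [hg]
        exact hfibb z hz w hw
      rw [h2, base_ptK, hB] at h1
      rw [← h1, Matrix.conjTranspose_mul]
      have h3 : (star B)ᴴ = B := by
        rw [← Matrix.star_eq_conjTranspose, star_star]
      rw [h3]
      simp only [Matrix.mul_assoc]
    have hX : ∀ i j, DifferentiableOn ℂ (fun w => (Jfq τ (ptK z w) * star B) i j) Δ := by
      intro i j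
      simp only [Matrix.mul_apply]
      refine DifferentiableOn.fun_sum fun m _ => ?_
      refine DifferentiableOn.mul_const ?_ _
      intro w hw
      have h1 := (hJd i m).differentiableAt (hW.mem_nhds (pt_mem hz hw))
      exact (h1.comp w (hasFDerivAt_ptK_right z w).differentiableAt).differentiableWithinAt
    have h4 := hs_const (X := fun w => Jfq τ (ptK z w) * star B) hΔo hΔc hX hw₀
      (fun w hw => by
        have e1 := hrel w hw
        have e2 := hrel w₀ hw₀
        exact e1.trans e2.symm) hw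
    have h5 := congrArg (fun Y => Y * (star B)⁻¹) h4
    simp only [Matrix.mul_assoc, Matrix.mul_nonsing_inv _ hBu, Matrix.mul_one] at h5
    exact h5
  have hne : ∀ z ∈ U, (fderiv ℂ g z).det ≠ 0 ∧ ((Jfq τ (ptK z w₀))ᵀ).det ≠ 0 := by
    intro z hz
    have h1 := (hτ2 _ (pt_mem hz hw₀)).2.1
    rw [hdetf z hz w₀ hw₀] at h1
    exact ⟨left_ne_zero_of_mul h1, right_ne_zero_of_mul h1⟩
  obtain ⟨A, hA⟩ : ∃ A : Cn b → Matrix (Fin k) (Fin k) ℂ, A = fun z => (Jfq τ (ptK z w₀))ᵀ :=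
    ⟨_, rfl⟩
  have hAd : ∀ i j, DifferentiableOn ℂ (fun z => A z i j) U := by
    intro i j z hz
    rw [hA]
    have h1 := (hJd j i).differentiableAt (hW.mem_nhds (pt_mem hz hw₀))
    exact (h1.comp z (hasFDerivAt_ptK_left z w₀).differentiableAt).differentiableWithinAt
  have hlin : ∀ z ∈ U, ∀ w ∈ Δ, fib (τ (ptK z w)) - A z *ᵥ w =
      fib (τ (ptK z w₀)) - A z *ᵥ w₀ := by
    intro z hz w hw
    have hd : ∀ s ∈ Δ, HasFDerivAt (fun s => fib (τ (ptK z s)) - A z *ᵥ s)
        (0 : Cn k →L[ℂ] Cn k) s := by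
      intro s hs
      have h1 := (fbL b k).hasFDerivAt.comp s (hfib z hz s hs)
      have h2 : HasFDerivAt (fun s => A z *ᵥ s) (Matrix.mulVecLin (A z)).toContinuousLinearMap s :=
        (Matrix.mulVecLin (A z)).toContinuousLinearMap.hasFDerivAt
      refine (h1.sub h2).congr_fderiv ?_
      refine ContinuousLinearMap.ext fun u => ?_
      change fib (fderiv ℂ τ (ptK z s) (ptK 0 u)) - A z *ᵥ u = 0
      rw [hfb z hz s hs _ (base_ptK _ _), fib_ptK, hJc z hz s hs, hA, sub_self]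
    exact hΔo.is_const_of_fderiv_eq_zero hΔc
      (fun s hs => (hd s hs).differentiableAt.differentiableWithinAt)
      (fun s hs => (hd s hs).fderiv) hw hw₀
  refine ⟨⟨g, A, fun z => fib (τ (ptK z w₀)) - A z *ᵥ w₀⟩, ⟨hgd, hAd, ?_⟩, ?_, ?_⟩
  · refine DifferentiableOn.sub ?_ ?_
    · intro z hz
      exact ((fbL b k).hasFDerivAt.comp z
        (hleft z hz w₀ hw₀)).differentiableAt.differentiableWithinAt
    · refine differentiableOn_pi.2 fun i => ?_
      simp only [Matrix.mulVec, dotProduct]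
      exact DifferentiableOn.fun_sum fun j _ => (hAd i j).mul_const _
  · intro z hz
    have hgz0 : base (τ (ptK z w₀)) = g z := by rw [hg]
    refine ⟨?_, ?_, ?_, ?_, ?_⟩
    · change g z ∈ U'
      rw [← hgz0]
      exact (hτ2 _ (pt_mem hz hw₀)).1
    · change (A z).det ≠ 0
      rw [hA]
      exact (hne z hz).2
    · exact (hne z hz).1
    · have h1 := (hτ2 _ (pt_mem hz hw₀)).2.2.1
      obtain ⟨h2, h3⟩ := hne z hz
      change Ψ₁ z = Ψ₂ (g z) + Real.log (‖(fderiv ℂ g z).det‖ ^ 2) +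
        Real.log (‖(A z).det‖ ^ 2)
      rw [base_ptK, hgz0, hdetf z hz w₀ hw₀, norm_mul, mul_pow, Real.log_mul
        (by positivity) (by positivity)] at h1
      rw [h1, hA]
      ring
    · intro u w
      change hermi (Hf₂ (g z)) (A z *ᵥ u) (A z *ᵥ w) = hermi (Hf₁ z) u w
      have h1 := (hτ2 _ (pt_mem hz hw₀)).2.2.2
      rw [base_ptK, hgz0] at h1
      rw [← h1, hA]
      exact hermi_J _ _ _ _
  · intro z hz w hw
    apply ext_base_fib
    · rw [base_ptK, hfibb z hz w hw]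
      change _ = g z
      rw [hg]
    · rw [fib_ptK]
      have h1 := hlin z hz w hw
      change _ = A z *ᵥ w + (fib (τ (ptK z w₀)) - A z *ᵥ w₀)
      rw [← h1]
      abel

end Pool.Agent.Helper52.RK
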