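import Pool.Agent.Helper52.RK.AFFTK

/-! # SPECK. Special charts exist -/

open Complex Metric Set Filter Topology MeasureTheory
open scoped ContDiff ComplexConjugate ComplexOrder Manifold Matrix

namespace Pool.Agent.Helper52.RK

open Pool.Agent.Helper95.Lin Pool.Agent.Helper16.Abund Pool.Agent.Helper92.Orb
  Pool.Agent.Helper10.SP Pool.Agent.Helper95.RK

universe u v

/-- SPECK. -/
theorem speck (hWIRT : S_WIRT) (hWCH : S_WCH) (hPARBK : S_PARBK.{u, v}) (hPMB : S_PMB.{u, v})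
    (hBZERO : S_BZERO.{u, v}) (hAFFC : S_AFFC) : S_SPECK.{u, v} := by
  intro b k G M _ _ _ _ _ _ _ h q v hb hD hFol p
  obtain ⟨r, hr, ψ₀, hFP, hinj, hψ0⟩ := hFol.chart p
  have hFG := hFol.flat _ _ ψ₀ isOpen_ball isOpen_ball hFP
  have hBz := hBZERO hb hD hFol _ _ ψ₀ isOpen_ball isOpen_ball hFP
  obtain ⟨r', hr', σ, Hf, s1, s2, s3, s4, s5, s6⟩ := hAFFC r hr (gm q ψ₀)
    (lpot (b + k) v ψ₀) hFG hBz
  obtain ⟨hP1, -⟩ := hPARBK hD
  obtain ⟨hM1, hM2⟩ := hPMB hD q hFol.herm hFol.inv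
  have hW' : IsOpen (prodK (ball (0 : Cn b) r') (ball (0 : Cn k) r')) :=
    isOpen_prodK isOpen_ball isOpen_ball
  have hW : IsOpen (prodK (ball (0 : Cn b) r) (ball (0 : Cn k) r)) :=
    isOpen_prodK isOpen_ball isOpen_ball
  set W' := prodK (ball (0 : Cn b) r') (ball (0 : Cn k) r') with hW'def
  set W := prodK (ball (0 : Cn b) r) (ball (0 : Cn k) r) with hWdef
  obtain ⟨hPar, hlp⟩ := hP1 W W' ψ₀ σ hFP.1 hW' s1 s3 (fun x hx => (s6 x hx).1)
  have hsm₀ : ContDiffOn ℝ ∞ (lpot (b + k) v ψ₀) W := hD.met.smooth _ _ hFP.1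
  have hsm : ContDiffOn ℝ ∞ (lpot (b + k) v (ψ₀ ∘ σ)) W' := hD.met.smooth _ _ hPar
  -- the derivative of σ
  have hbd : ∀ x ∈ W', ∀ e, base (fderiv ℂ σ x e) = base e := by
    intro x hx e
    have h1 : HasFDerivAt (fun y => base (σ y)) ((bsL b k).comp (fderiv ℂ σ x)) x :=
      (bsL b k).hasFDerivAt.comp x (s1.differentiableAt (hW'.mem_nhds hx)).hasFDerivAt
    have h2 : (fun y => base (σ y)) =ᶠ[𝓝 x] fun y => bsL b k y := by
      filter_upwards [hW'.mem_nhds hx] with y hy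
      exact (s6 y hy).2.1
    have h3 : HasFDerivAt (fun y => base (σ y)) (bsL b k) x :=
      (bsL b k).hasFDerivAt.congr_of_eventuallyEq h2
    exact DFunLike.congr_fun (h1.unique h3) e
  -- the leaf metric
  have hleaf : ∀ x ∈ W', gm q (ψ₀ ∘ σ) x = Hf (base x) := by
    intro x hx
    rw [← (s6 x hx).2.2]
    refine Pool.Agent.Helper16.RK.hermi_ext fun u w => ?_
    have e1 : ∀ u : Cn k, fderiv ℂ σ x (ptK 0 u) = ptK 0 ((Jfq σ x)ᵀ *ᵥ u) := by
      intro u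
      apply ext_base_fib
      · rw [hbd x hx, base_ptK, base_ptK]
      · rw [fib_ptK]
        have h1 : (ptK 0 u : Cn (b + k)) = ∑ i, u i • ef b i := by
          have := eq_sum_ef (b := b) (u := ptK 0 u) (base_ptK _ _)
          rwa [fib_ptK] at this
        rw [h1, map_sum]
        funext j
        change (∑ i, fderiv ℂ σ x (u i • ef b i)) (Fin.natAdd b j) = _
        rw [Finset.sum_apply]
        simp only [Matrix.mulVec, dotProduct, Matrix.transpose_apply, map_smul, Pi.smul_apply,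
          smul_eq_mul]
        refine Finset.sum_congr rfl fun i _ => ?_
        rw [mul_comm]
        rfl
    change hermi (fbl (pm (b + k) q (ψ₀ ∘ σ) x)) u w = _
    rw [← Pool.Agent.Helper16.RK.hermi_ptK, hM2 W W' ψ₀ σ hFP.1 hW' s1 s3
      (fun x hx => (s6 x hx).1) x hx, e1, e1, Pool.Agent.Helper16.RK.hermi_ptK]
    exact hermi_J _ _ _ _
  -- the Levi form
  obtain ⟨w1, w2⟩ := hWCH
  obtain ⟨-, w3⟩ := w1 W W' hW hW' σ s1 s3
  have hdetd : DifferentiableOn ℂ (fun x => (fderiv ℂ σ x).det) W' :=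
    Pool.Agent.Helper10.Abund.differentiableOn_det_fderiv hW' s1
  obtain ⟨w4, w5⟩ := w2 W' hW' (fun x => (fderiv ℂ σ x).det) hdetd (fun x hx => (s6 x hx).1)
  have hσr : ContDiffOn ℝ ∞ σ W' := holo_contDiffOn_real hW' s1
  have hlev : ∀ x ∈ W', ∀ e, lev (lpot (b + k) v (ψ₀ ∘ σ)) x e = 0 ↔ base e = 0 := by
    intro x hx e
    have e1 : lpot (b + k) v (ψ₀ ∘ σ) =ᶠ[𝓝 x]
        fun y => (lpot (b + k) v ψ₀ ∘ σ) y + Real.log (‖(fderiv ℂ σ y).det‖ ^ 2) := by
      filter_upwards [hW'.mem_nhds hx] with y hy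
      exact (hlp y hy).2
    rw [Pool.Agent.Helper9.Lin.lev_congr e1 e,
      Pool.Agent.Helper55.SP.lev_add hW' (hsm₀.comp hσr s3) w4 hx, (w5 x hx).1, add_zero,
      (w3 _ hsm₀ x hx).1, hFP.2 _ (s3 hx), hbd x hx]
  have hFP' : FolPar v (ball (0 : Cn b) r') (ball (0 : Cn k) r') (ψ₀ ∘ σ) := ⟨hPar, hlev⟩
  have hFG' := hFol.flat _ _ (ψ₀ ∘ σ) isOpen_ball isOpen_ball hFP'
  -- the potential does not depend on the fibre coordinates
  have hcd : ∀ x ∈ W', ∀ i : Fin k, cd (Fin.natAdd b i)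
      (fun y => ((lpot (b + k) v (ψ₀ ∘ σ) y : ℝ) : ℂ)) x = 0 := by
    intro x hx i
    rw [← hFG'.vol x hx i]
    have e1 : (fun y => ((Real.log (gm q (ψ₀ ∘ σ) y).det.re : ℝ) : ℂ)) =ᶠ[𝓝 x]
        fun y => ((Real.log (Hf (base y)).det.re : ℝ) : ℂ) := by
      filter_upwards [hW'.mem_nhds hx] with y hy
      rw [hleaf y hy]
    rw [Pool.Agent.Helper58.SP.cd_congr_nhds e1]
    have hdd : DifferentiableAt ℝ (fun z => ((Real.log (Hf z).det.re : ℝ) : ℂ)) (base x) := by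
      have h2 : DifferentiableAt ℝ (fun z => (Hf z).det) (base x) :=
        ((Pool.Agent.Helper93.RK.contDiffOn_det s5).contDiffAt
          (isOpen_ball.mem_nhds hx.1)).differentiableAt (by simp)
      have h3 : DifferentiableAt ℝ (fun z => (Hf z).det.re) (base x) :=
        Complex.reCLM.differentiableAt.comp _ h2
      have h4 : (Hf (base x)).det.re ≠ 0 := by
        have h5 : (gm q (ψ₀ ∘ σ) x).PosDef := fbl_posDef ((hM1 W' (ψ₀ ∘ σ) hPar).2.1 x hx)
        rw [hleaf x hx] at h5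
        have h6 := h5.det_pos
        exact (Complex.pos_iff.1 h6).1.ne'
      have h7 : DifferentiableAt ℝ (fun z => Real.log (Hf z).det.re) (base x) := h3.log h4
      exact Complex.ofRealCLM.differentiableAt.comp _ h7
    have h8 : HasFDerivAt (fun y : Cn (b + k) => ((Real.log (Hf (base y)).det.re : ℝ) : ℂ))
        ((fderiv ℝ (fun z => ((Real.log (Hf z).det.re : ℝ) : ℂ)) (base x)).comp
          ((bsL b k).restrictScalars ℝ)) x :=
      hdd.hasFDerivAt.comp x ((bsL b k).restrictScalars ℝ).hasFDerivAt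
    unfold cd
    rw [h8.fderiv]
    have h9 : (Pi.single (Fin.natAdd b i) I : Cn (b + k)) = I • ef b i := by
      rw [ef, ← Pi.single_smul]
      simp
    have h10 : base (Pi.single (Fin.natAdd b i) 1 : Cn (b + k)) = 0 := base_ef i
    have h11 : base (Pi.single (Fin.natAdd b i) I : Cn (b + k)) = 0 := by
      rw [h9, base_smul, base_ef, smul_zero]
    simp only [ContinuousLinearMap.comp_apply, ContinuousLinearMap.coe_restrictScalars',
      bsL_apply, h10, h11, map_zero, mul_zero, sub_zero]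
  have hsmc : ContDiffOn ℝ ∞ (fun y => ((lpot (b + k) v (ψ₀ ∘ σ) y : ℝ) : ℂ)) W' :=
    Complex.ofRealCLM.contDiff.comp_contDiffOn hsm
  have hcdb : ∀ x ∈ W', ∀ i : Fin k, cdb (Fin.natAdd b i)
      (fun y => ((lpot (b + k) v (ψ₀ ∘ σ) y : ℝ) : ℂ)) x = 0 := by
    intro x hx i
    have hw := hWIRT W' hW' _ _ hsmc hsmc
    have h1 := (hw.2.2.2.1 (Fin.natAdd b i) x hx).2
    have h2 : (fun y => conj ((lpot (b + k) v (ψ₀ ∘ σ) y : ℝ) : ℂ)) = fun y =>
        ((lpot (b + k) v (ψ₀ ∘ σ) y : ℝ) : ℂ) := by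
      funext y
      exact Complex.conj_ofReal _
    rw [h2, hcd x hx i, map_zero] at h1
    exact h1
  have hz0 : ∀ z ∈ ball (0 : Cn b) r', (ptK z 0 : Cn (b + k)) ∈ W' := fun z hz =>
    ⟨by rwa [base_ptK], by rw [fib_ptK]; exact mem_ball_self hr'⟩
  have hpot : ∀ x ∈ W', lpot (b + k) v (ψ₀ ∘ σ) x = lpot (b + k) v (ψ₀ ∘ σ) (ptK (base x) 0) := by
    intro x hx
    have hmem : ∀ w ∈ ball (0 : Cn k) r', (ptK (base x) w : Cn (b + k)) ∈ W' := fun w hw =>
      ⟨by rw [base_ptK]; exact hx.1, by rwa [fib_ptK]⟩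
    have h1 := fib_const (f := fun y => ((lpot (b + k) v (ψ₀ ∘ σ) y : ℝ) : ℂ)) (z := base x)
      isOpen_ball (convex_ball (0 : Cn k) r').isPreconnected
      (fun w hw => (hsmc.contDiffAt (hW'.mem_nhds (hmem w hw))).differentiableAt (by simp))
      (fun w hw u hu => fder_zero (fun i => hcd _ (hmem w hw) i)
        (fun i => hcdb _ (hmem w hw) i) hu) hx.2 (mem_ball_self hr')
    rw [ptK_base_fib] at h1
    exact Complex.ofReal_injective h1
  have hzsm : ContDiff ℝ ∞ (fun z : Cn b => (ptK z 0 : Cn (b + k))) :=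
    ((zL b k).restrictScalars ℝ).contDiff
  refine ⟨r', hr', ψ₀ ∘ σ, fun z => lpot (b + k) v (ψ₀ ∘ σ) (ptK z 0), Hf,
    ⟨hPar, ?_, ?_, hpot, s5, ?_, hleaf⟩, ?_, ?_⟩
  · exact hsm.comp hzsm.contDiffOn (fun z hz => hz0 z hz)
  · intro z hz e he
    have h1 := ((w1 W' (ball (0 : Cn b) r') hW' isOpen_ball (fun z => ptK z 0)
      (zL b k).differentiable.differentiableOn (fun z hz => hz0 z hz)).2
      (lpot (b + k) v (ψ₀ ∘ σ)) hsm z hz).1 e
    have h2 : fderiv ℂ (fun z : Cn b => (ptK z 0 : Cn (b + k))) z e = ptK e 0 := by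
      rw [(hasFDerivAt_ptK_left z (0 : Cn k)).fderiv]
      rfl
    rw [h2] at h1
    have h3 : lev (fun z => lpot (b + k) v (ψ₀ ∘ σ) (ptK z 0)) z e =
        lev (lpot (b + k) v (ψ₀ ∘ σ)) (ptK z 0) (ptK e 0) := h1
    rw [h3]
    refine lt_of_le_of_ne ((hD.rank _ _ hPar _ (hz0 z hz)).1 _) fun h0 => ?_
    have h4 := (hlev _ (hz0 z hz) _).1 h0.symm
    rw [base_ptK] at h4
    exact he h4
  · intro z hz
    have h5 : (gm q (ψ₀ ∘ σ) (ptK z 0)).PosDef :=
      fbl_posDef ((hM1 W' (ψ₀ ∘ σ) hPar).2.1 _ (hz0 z hz))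
    rwa [hleaf _ (hz0 z hz), base_ptK] at h5
  · exact hinj.comp s2 s3
  · change ψ₀ (σ 0) = p
    rw [s4, hψ0]

end Pool.Agent.Helper52.RK
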