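import Pool.Agent.Helper95.RK.GoalsC
import Pool.Agent.Helper95.RK.Basics
import Pool.Agent.Helper95.Lin.Basics
import Pool.Agent.Helper58.SP.PIO
import Pool.Agent.Helper59.SP.WCH
import Pool.Agent.Helper93.RK.DIFP

/-! # AFFC, part A: matrix calculus -/

open Complex Metric Set Filter Topology MeasureTheory
open scoped ContDiff ComplexConjugate ComplexOrder Manifold Matrix

namespace Pool.Agent.Helper52.RK

open Pool.Agent.Helper95.Lin Pool.Agent.Helper16.Abund Pool.Agent.Helper92.Orb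
  Pool.Agent.Helper10.SP Pool.Agent.Helper95.RK

/-- Entrywise derivative. -/
noncomputable def cdM {n k : ℕ} (l : Fin n) (A : Cn n → Matrix (Fin k) (Fin k) ℂ) (x : Cn n) :
    Matrix (Fin k) (Fin k) ℂ := Matrix.of fun i j => cd l (fun y => A y i j) x

theorem cdM_mul {n k : ℕ} {A B : Cn n → Matrix (Fin k) (Fin k) ℂ} {x : Cn n}
    (hA : ∀ i j, DifferentiableAt ℝ (fun y => A y i j) x)
    (hB : ∀ i j, DifferentiableAt ℝ (fun y => B y i j) x) (l : Fin n) :
    cdM l (fun y => A y * B y) x = cdM l A x * B x + A x * cdM l B x := by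
  ext i j
  simp only [cdM, Matrix.of_apply, Matrix.mul_apply, Matrix.add_apply]
  have h1 := Pool.Agent.Helper58.SP.cd_sump Finset.univ (f := fun m y => A y i m * B y m j)
    (x := x) (fun m _ => (hA i m).fun_mul (hB m j)) l
  rw [h1, ← Finset.sum_add_distrib]
  refine Finset.sum_congr rfl fun m _ => ?_
  rw [Pool.Agent.Helper58.SP.cd_mulp (hA i m) (hB m j)]
  ring

theorem cdM_congr {n k : ℕ} {A B : Cn n → Matrix (Fin k) (Fin k) ℂ} {x : Cn n}
    (h : A =ᶠ[𝓝 x] B) (l : Fin n) : cdM l A x = cdM l B x := by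
  ext i j
  simp only [cdM, Matrix.of_apply]
  refine Pool.Agent.Helper58.SP.cd_congr_nhds ?_ l
  filter_upwards [h] with y hy
  rw [hy]

theorem diffOn_det {n k : ℕ} {D : Set (Cn n)} {A : Cn n → Matrix (Fin k) (Fin k) ℂ}
    (h : ∀ p q, DifferentiableOn ℂ (fun z => A z p q) D) :
    DifferentiableOn ℂ (fun z => (A z).det) D := by
  have e : (fun z => (A z).det) = fun z => ∑ σ : Equiv.Perm (Fin k),
      ((Equiv.Perm.sign σ : ℤ) : ℂ) * ∏ i, A z (σ i) i := by
    funext z
    exact Matrix.det_apply' _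
  rw [e]
  refine DifferentiableOn.fun_sum fun σ _ => (differentiableOn_const _).mul ?_
  exact Pool.Agent.Helper58.SP.diffOn_prod fun i => h _ _

theorem diffOn_inv {n k : ℕ} {D : Set (Cn n)} {A : Cn n → Matrix (Fin k) (Fin k) ℂ}
    (h : ∀ p q, DifferentiableOn ℂ (fun z => A z p q) D) (h0 : ∀ z ∈ D, (A z).det ≠ 0)
    (p q : Fin k) : DifferentiableOn ℂ (fun z => (A z)⁻¹ p q) D := by
  have e : ∀ z ∈ D, (A z)⁻¹ p q = ((A z).det)⁻¹ * ((A z).updateRow q (Pi.single p 1)).det := by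
    intro z _
    rw [Matrix.inv_def, Ring.inverse_eq_inv', ← Matrix.adjugate_apply]
    rfl
  have h1 : DifferentiableOn ℂ (fun z => ((A z).updateRow q (Pi.single p 1)).det) D := by
    refine diffOn_det fun i j => ?_
    by_cases hi : i = q
    · subst hi
      simp only [Matrix.updateRow_self]
      exact differentiableOn_const _
    · simp only [Matrix.updateRow_ne hi]
      exact h i j
  exact (((diffOn_det h).inv h0).mul h1).congr e

/-- The connection form. -/
theorem chrM_eq {b k : ℕ} (g : Cn (b + k) → Matrix (Fin k) (Fin k) ℂ) (i : Fin k)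
    (x : Cn (b + k)) : chrM g i x = cdM (Fin.natAdd b i) g x * (g x)⁻¹ := rfl

section conn

variable {b k : ℕ} {W : Set (Cn (b + k))} {g : Cn (b + k) → Matrix (Fin k) (Fin k) ℂ}
  {Φ : Cn (b + k) → ℝ}

theorem g_det_ne (hF : FlatG W g Φ) {x : Cn (b + k)} (hx : x ∈ W) : (g x).det ≠ 0 :=
  (hF.posDef x hx).det_pos.ne'

theorem cdM_g (hF : FlatG W g Φ) {x : Cn (b + k)} (hx : x ∈ W) (i : Fin k) :
    cdM (Fin.natAdd b i) g x = chrM g i x * g x := by
  rw [chrM_eq, Matrix.mul_assoc, Matrix.nonsing_inv_mul _ (isUnit_iff_ne_zero.2 (g_det_ne hF hx)),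
    Matrix.mul_one]

theorem chr_smooth (hWIRT : S_WIRT) (hW : IsOpen W) (hF : FlatG W g Φ) (i j l : Fin k) :
    ContDiffOn ℝ ∞ (fun x => chrM g i x j l) W := by
  have h1 : ∀ p q, ContDiffOn ℝ ∞ (fun x => (g x)⁻¹ p q) W := fun p q =>
    Pool.Agent.Helper93.RK.contDiffOn_inv hF.smooth (fun x hx => g_det_ne hF hx) p q
  have h2 : ∀ p q, ContDiffOn ℝ ∞ (fun x => cd (Fin.natAdd b i) (fun y => g y p q) x) W :=
    fun p q => ((hWIRT W hW _ _ (hF.smooth p q) (hF.smooth p q)).1 _).1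
  have h3 : (fun x => chrM g i x j l) = fun x => ∑ m, cd (Fin.natAdd b i) (fun y => g y j m) x *
      (g x)⁻¹ m l := by
    funext x
    rw [chrM_eq, Matrix.mul_apply]
    rfl
  rw [h3]
  exact ContDiffOn.sum fun m _ => (h2 j m).mul (h1 m l)

theorem chr_symm (hF : FlatG W g Φ) {x : Cn (b + k)} (hx : x ∈ W) (i j l : Fin k) :
    chrM g i x j l = chrM g j x i l := by
  rw [chrM_eq, chrM_eq, Matrix.mul_apply, Matrix.mul_apply]
  refine Finset.sum_congr rfl fun m _ => ?_
  congr 1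
  exact hF.kah x hx j m i

theorem chr_holo (hWIRT : S_WIRT) (hW : IsOpen W) (hF : FlatG W g Φ)
    (hB : ∀ x ∈ W, ∀ (a : Fin b) (i j l : Fin k),
      cdb (Fin.castAdd k a) (fun y => chrM g i y j l) x = 0) (i j l : Fin k) :
    DifferentiableOn ℂ (fun x => chrM g i x j l) W := by
  have h1 := chr_smooth hWIRT hW hF i j l
  refine (hWIRT W hW _ _ h1 h1).2.2.2.2.2.1 ?_
  intro m x hx
  refine Fin.addCases (fun a => ?_) (fun p => ?_) m
  · exact hB x hx a i j l
  · exact hF.flat x hx i j p l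

theorem chr_comm (hWIRT : S_WIRT) (hW : IsOpen W) (hF : FlatG W g Φ) {x : Cn (b + k)}
    (hx : x ∈ W) (i l : Fin k) :
    cdM (Fin.natAdd b l) (chrM g i) x + chrM g i x * chrM g l x =
      cdM (Fin.natAdd b i) (chrM g l) x + chrM g l x * chrM g i x := by
  have hd1 : ∀ i p q, DifferentiableAt ℝ (fun y => chrM g i y p q) x := fun i p q =>
    ((chr_smooth hWIRT hW hF i p q).contDiffAt (hW.mem_nhds hx)).differentiableAt (by simp)
  have hd2 : ∀ p q, DifferentiableAt ℝ (fun y => g y p q) x := fun p q =>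
    ((hF.smooth p q).contDiffAt (hW.mem_nhds hx)).differentiableAt (by simp)
  have key : ∀ i l : Fin k, cdM (Fin.natAdd b l) (cdM (Fin.natAdd b i) g) x =
      (cdM (Fin.natAdd b l) (chrM g i) x + chrM g i x * chrM g l x) * g x := by
    intro i l
    have h1 : cdM (Fin.natAdd b i) g =ᶠ[𝓝 x] fun y => chrM g i y * g y := by
      filter_upwards [hW.mem_nhds hx] with y hy
      exact cdM_g hF hy i
    rw [cdM_congr h1, cdM_mul (hd1 i) hd2, cdM_g hF hx l]
    noncomm_ring
  have hsym : cdM (Fin.natAdd b l) (cdM (Fin.natAdd b i) g) x =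
      cdM (Fin.natAdd b i) (cdM (Fin.natAdd b l) g) x := by
    ext p q
    exact ((hWIRT W hW _ _ (hF.smooth p q) (hF.smooth p q)).2.2.2.2.1 (Fin.natAdd b l)
      (Fin.natAdd b i) x hx).1
  rw [key, key] at hsym
  have h2 : IsUnit (g x) := (Matrix.isUnit_iff_isUnit_det _).2
    (isUnit_iff_ne_zero.2 (g_det_ne hF hx))
  exact h2.mul_right_cancel hsym

end conn

end Pool.Agent.Helper52.RK
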