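import Pool.Agent.Helper52.RK.AFA

/-! # AFFC, part B: the affine frame -/

open Complex Metric Set Filter Topology MeasureTheory
open scoped ContDiff ComplexConjugate ComplexOrder Manifold Matrix

namespace Pool.Agent.Helper52.RK

open Pool.Agent.Helper95.Lin Pool.Agent.Helper16.Abund Pool.Agent.Helper92.Orb
  Pool.Agent.Helper10.SP Pool.Agent.Helper95.RK

/-- The right hand side of the total differential equation. -/
noncomputable def fP {b k : ℕ} (G : Fin k → Cn (b + k) → Matrix (Fin k) (Fin k) ℂ) (i : Fin k)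
    (p : Cn (b + k) × ((Fin k → ℂ) × (Fin k → Fin k → ℂ))) :
    (Fin k → ℂ) × (Fin k → Fin k → ℂ) :=
  (p.2.2 i, fun j l => ∑ m, G i p.1 j m * p.2.2 m l)

/-- The coordinates of the last component. -/
noncomputable def evL (b k : ℕ) (m : Fin k) :
    Cn (b + k) × ((Fin k → ℂ) × (Fin k → Fin k → ℂ)) →L[ℂ] (Fin k → ℂ) :=
  (ContinuousLinearMap.proj (R := ℂ) (φ := fun _ : Fin k => Fin k → ℂ) m).comp
    ((ContinuousLinearMap.snd ℂ (Fin k → ℂ) (Fin k → Fin k → ℂ)).comp
      (ContinuousLinearMap.snd ℂ (Cn (b + k)) ((Fin k → ℂ) × (Fin k → Fin k → ℂ))))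

/-- The entries of the last component. -/
noncomputable def evL2 (b k : ℕ) (m l : Fin k) :
    Cn (b + k) × ((Fin k → ℂ) × (Fin k → Fin k → ℂ)) →L[ℂ] ℂ :=
  (ContinuousLinearMap.proj (R := ℂ) (φ := fun _ : Fin k => ℂ) l).comp (evL b k m)

theorem fP_deriv {b k : ℕ} {G : Fin k → Cn (b + k) → Matrix (Fin k) (Fin k) ℂ} (i : Fin k)
    {p : Cn (b + k) × ((Fin k → ℂ) × (Fin k → Fin k → ℂ))}
    (hG : ∀ j m, DifferentiableAt ℂ (fun x => G i x j m) p.1) :
    DifferentiableAt ℂ (fP G i) p ∧ ∀ (ξ : Cn (b + k)) (τ : Fin k → ℂ) (ε : Fin k → Fin k → ℂ),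
      fderiv ℂ (fP G i) p (ξ, (τ, ε)) = (ε i, fun j l => ∑ m,
        (fderiv ℂ (fun x => G i x j m) p.1 ξ * p.2.2 m l + G i p.1 j m * ε m l)) := by
  have h3 : HasFDerivAt (fun p : Cn (b + k) × ((Fin k → ℂ) × (Fin k → Fin k → ℂ)) => p.1)
      (ContinuousLinearMap.fst ℂ (Cn (b + k)) ((Fin k → ℂ) × (Fin k → Fin k → ℂ))) p :=
    (ContinuousLinearMap.fst ℂ (Cn (b + k)) ((Fin k → ℂ) × (Fin k → Fin k → ℂ))).hasFDerivAt
  have h4 : ∀ m, HasFDerivAt (fun p : Cn (b + k) × ((Fin k → ℂ) × (Fin k → Fin k → ℂ)) => p.2.2 m)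
      (evL b k m) p := fun m => (evL b k m).hasFDerivAt
  have h5 : ∀ m l, HasFDerivAt
      (fun p : Cn (b + k) × ((Fin k → ℂ) × (Fin k → Fin k → ℂ)) => p.2.2 m l)
      (evL2 b k m l) p := fun m l => (evL2 b k m l).hasFDerivAt
  have h6 : ∀ j m, HasFDerivAt
      (fun p : Cn (b + k) × ((Fin k → ℂ) × (Fin k → Fin k → ℂ)) => G i p.1 j m)
      ((fderiv ℂ (fun x => G i x j m) p.1).comp (ContinuousLinearMap.fst ℂ (Cn (b + k))
        ((Fin k → ℂ) × (Fin k → Fin k → ℂ)))) p := fun j m =>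
    (hG j m).hasFDerivAt.comp p h3
  have h7 : ∀ j l, HasFDerivAt
      (fun p : Cn (b + k) × ((Fin k → ℂ) × (Fin k → Fin k → ℂ)) => ∑ m, G i p.1 j m * p.2.2 m l)
      (∑ m, (G i p.1 j m • (evL2 b k m l) +
        p.2.2 m l • ((fderiv ℂ (fun x => G i x j m) p.1).comp
          (ContinuousLinearMap.fst ℂ (Cn (b + k)) ((Fin k → ℂ) × (Fin k → Fin k → ℂ)))))) p :=
    fun j l => HasFDerivAt.fun_sum fun m _ => (h6 j m).mul (h5 m l)
  have h8 : HasFDerivAt (fP G i) _ p := (h4 i).prodMk (hasFDerivAt_pi.2 fun j =>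
    hasFDerivAt_pi.2 fun l => h7 j l)
  refine ⟨h8.differentiableAt, fun ξ τ ε => ?_⟩
  rw [h8.fderiv]
  refine Prod.ext ?_ ?_
  · rfl
  · funext j l
    simp only [ContinuousLinearMap.prod_apply, ContinuousLinearMap.pi_apply,
      sum_apply, add_apply, smul_apply, ContinuousLinearMap.comp_apply,
      ContinuousLinearMap.coe_fst', smul_eq_mul]
    refine Finset.sum_congr rfl fun m _ => ?_
    have e1 : evL2 b k m l (ξ, (τ, ε)) = ε m l := rfl
    rw [e1]
    ring

/-- The solution of the total differential equation. -/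
theorem frame (hWIRT : S_WIRT) (hPF : S_PFAFF) {b k : ℕ} {r : ℝ} (hr : 0 < r)
    {g : Cn (b + k) → Matrix (Fin k) (Fin k) ℂ} {Φ : Cn (b + k) → ℝ}
    (hF : FlatG (prodK (ball (0 : Cn b) r) (ball (0 : Cn k) r)) g Φ)
    (hB : ∀ x ∈ prodK (ball (0 : Cn b) r) (ball (0 : Cn k) r), ∀ (a : Fin b) (i j l : Fin k),
      cdb (Fin.castAdd k a) (fun y => chrM g i y j l) x = 0) :
    ∃ r1 > 0, ∃ (t : Cn (b + k) → Cn k) (e : Cn (b + k) → Matrix (Fin k) (Fin k) ℂ),
      ball (0 : Cn (b + k)) r1 ⊆ prodK (ball (0 : Cn b) r) (ball (0 : Cn k) r) ∧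
      DifferentiableOn ℂ t (ball 0 r1) ∧
      (∀ i j, DifferentiableOn ℂ (fun x => e x i j) (ball 0 r1)) ∧ t 0 = 0 ∧ e 0 = 1 ∧
      (∀ x ∈ ball (0 : Cn (b + k)) r1, ∀ i l, fderiv ℂ t x (ef b i) l = e x i l) ∧
      ∀ x ∈ ball (0 : Cn (b + k)) r1, ∀ i j l, fderiv ℂ (fun y => e y j l) x (ef b i) =
        (1 / 2) * (chrM g i x * e x) j l := by
  set W := prodK (ball (0 : Cn b) r) (ball (0 : Cn k) r) with hWdef
  have hW : IsOpen W := isOpen_prodK isOpen_ball isOpen_ball
  set G : Fin k → Cn (b + k) → Matrix (Fin k) (Fin k) ℂ := fun i x => (1 / 2 : ℂ) • chrM g i x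
    with hG
  have hGd : ∀ i j l, DifferentiableOn ℂ (fun x => G i x j l) W := fun i j l =>
    (chr_holo hWIRT hW hF hB i j l).const_mul (1 / 2)
  have hGat : ∀ i, ∀ x ∈ W, ∀ j l, DifferentiableAt ℂ (fun y => G i y j l) x := fun i x hx j l =>
    (hGd i j l).differentiableAt (hW.mem_nhds hx)
  have hWo : IsOpen {p : Cn (b + k) × ((Fin k → ℂ) × (Fin k → Fin k → ℂ)) | p.1 ∈ W} :=
    hW.preimage continuous_fst
  have h0W : (0 : Cn (b + k)) ∈ W := ⟨mem_ball_self hr, mem_ball_self hr⟩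
  -- the derivatives of the coefficients
  have hcd : ∀ i l, ∀ x ∈ W, ∀ j m, fderiv ℂ (fun y => G i y j m) x (ef b l) =
      (1 / 4) * cdM (Fin.natAdd b l) (chrM g i) x j m := by
    intro i l x hx j m
    have h1 := Pool.Agent.Helper58.SP.cd_holo hW (chr_holo hWIRT hW hF hB i j m) hx
      (Fin.natAdd b l)
    have h2 : fderiv ℂ (fun y => G i y j m) x (ef b l) =
        (1 / 2) * fderiv ℂ (fun y => chrM g i y j m) x (ef b l) := by
      have h3 := ((chr_holo hWIRT hW hF hB i j m).differentiableAt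
        (hW.mem_nhds hx)).hasFDerivAt.const_mul (1 / 2 : ℂ)
      have h4 : HasFDerivAt (fun y => G i y j m) _ x := h3
      rw [h4.fderiv]
      rfl
    rw [h2]
    have h3 : cdM (Fin.natAdd b l) (chrM g i) x j m =
        cd (Fin.natAdd b l) (fun y => chrM g i y j m) x := rfl
    rw [h3, h1]
    have h4 : ef b l = (Pi.single (Fin.natAdd b l) 1 : Cn (b + k)) := rfl
    rw [h4]
    ring
  obtain ⟨r0, hr0, y, hyd, hy1, hy2⟩ := hPF ((Fin k → ℂ) × (Fin k → Fin k → ℂ))
    {p | p.1 ∈ W} (fP G) hWo (fun i p hp => (fP_deriv i (hGat i p.1 hp)).1.differentiableWithinAt)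
    (by
      rintro ⟨x, τ, e⟩ hw i j
      have hx : x ∈ W := hw
      have e1 := (fP_deriv (G := G) (p := (x, (τ, e))) j (hGat j x hx)).2 (ef b i) (e i)
        (fun j l => ∑ m, G i x j m * e m l)
      have e2 := (fP_deriv (G := G) (p := (x, (τ, e))) i (hGat i x hx)).2 (ef b j) (e j)
        (fun i l => ∑ m, G j x i m * e m l)
      have e3 : fP G i (x, (τ, e)) = (e i, fun j l => ∑ m, G i x j m * e m l) := rfl
      have e4 : fP G j (x, (τ, e)) = (e j, fun i l => ∑ m, G j x i m * e m l) := rfl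
      rw [e3, e4, e1, e2]
      refine Prod.ext ?_ ?_
      · funext l
        change ∑ m, G i x j m * e m l = ∑ m, G j x i m * e m l
        refine Finset.sum_congr rfl fun m _ => ?_
        congr 1
        change (1 / 2 : ℂ) * chrM g i x j m = (1 / 2 : ℂ) * chrM g j x i m
        rw [chr_symm hF hx]
      · funext p l
        have hcomm := chr_comm hWIRT hW hF hx j i
        have hent : ∀ m, cdM (Fin.natAdd b i) (chrM g j) x p m + (chrM g j x * chrM g i x) p m =
            cdM (Fin.natAdd b j) (chrM g i) x p m + (chrM g i x * chrM g j x) p m := fun m => by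
          have := congrFun (congrFun hcomm p) m
          simpa only [Matrix.add_apply] using this
        have key : ∀ i j : Fin k, ∑ m, (fderiv ℂ (fun x => G j x p m) x (ef b i) * e m l +
            G j x p m * ∑ q, G i x m q * e q l) = (1 / 4) * ∑ m,
            (cdM (Fin.natAdd b i) (chrM g j) x p m + (chrM g j x * chrM g i x) p m) * e m l := by
          intro i j
          rw [Finset.sum_add_distrib]
          have s1 : ∑ m, G j x p m * ∑ q, G i x m q * e q l =
              ∑ q, (1 / 4) * (chrM g j x * chrM g i x) p q * e q l := by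
            simp only [Finset.mul_sum, Matrix.mul_apply]
            rw [Finset.sum_comm]
            refine Finset.sum_congr rfl fun q _ => ?_
            rw [Finset.sum_mul]
            refine Finset.sum_congr rfl fun m _ => ?_
            simp only [hG, Matrix.smul_apply, smul_eq_mul]
            ring
          rw [s1, ← Finset.sum_add_distrib, Finset.mul_sum]
          refine Finset.sum_congr rfl fun m _ => ?_
          rw [hcd j i x hx p m]
          ring
        have k1 := key i j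
        have k2 := key j i
        refine Eq.trans k1 (Eq.trans ?_ k2.symm)
        congr 1
        refine Finset.sum_congr rfl fun m _ => ?_
        rw [hent m])
    0 1 (fun _ => (0, fun i j => (1 : Matrix (Fin k) (Fin k) ℂ) i j)) one_pos
    (differentiableOn_const _) h0W
  have hsub : ball (0 : Cn (b + k)) (min r0 r) ⊆ ball 0 r0 :=
    ball_subset_ball (min_le_left _ _)
  have hy0 := hy2 0 (mem_ball_self hr0) rfl
  refine ⟨min r0 r, lt_min hr0 hr, fun x => (y x).1, fun x => Matrix.of (y x).2, ?_, ?_, ?_, ?_,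
    ?_, ?_, ?_⟩
  · intro x hx
    have := ball_subset_ball (min_le_right _ _) hx
    rw [ball_prodK] at this
    exact this
  · intro x hx
    exact (differentiableAt_fst.comp x (hyd.differentiableAt
      (isOpen_ball.mem_nhds (hsub hx)))).differentiableWithinAt
  · intro i j x hx
    have h1 := (hyd.differentiableAt (isOpen_ball.mem_nhds (hsub hx))).hasFDerivAt
    have h2 := (hasFDerivAt_pi'.1 ((hasFDerivAt_pi'.1 h1.snd) i)) j
    exact h2.differentiableAt.differentiableWithinAt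
  · change (y 0).1 = 0
    rw [hy0]
  · change Matrix.of (y 0).2 = 1
    rw [hy0]
    rfl
  · intro x hx i l
    have h1 := (hyd.differentiableAt (isOpen_ball.mem_nhds (hsub hx))).hasFDerivAt
    have h2 := h1.fst
    rw [h2.fderiv]
    have h3 := (hy1 x (hsub hx)).2 i
    change (fderiv ℂ y x (ef b i)).1 l = _
    rw [h3]
    rfl
  · intro x hx i j l
    have h1 := (hyd.differentiableAt (isOpen_ball.mem_nhds (hsub hx))).hasFDerivAt
    have h2 := (hasFDerivAt_pi'.1 ((hasFDerivAt_pi'.1 h1.snd) j)) l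
    have h4 : HasFDerivAt (fun y' => (Matrix.of (y y').2 : Matrix (Fin k) (Fin k) ℂ) j l) _ x := h2
    rw [h4.fderiv]
    have h3 := (hy1 x (hsub hx)).2 i
    change (fderiv ℂ y x (ef b i)).2 j l = _
    rw [h3]
    change ∑ m, G i x j m * (y x).2 m l = _
    rw [Matrix.mul_apply, Finset.mul_sum]
    refine Finset.sum_congr rfl fun m _ => ?_
    simp only [hG, Matrix.smul_apply, smul_eq_mul, Matrix.of_apply]
    ring

end Pool.Agent.Helper52.RK
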