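import Pool.Agent.Helper52.RK.AFB

/-! # AFFC, part C: tools for fibre derivatives -/

open Complex Metric Set Filter Topology MeasureTheory
open scoped ContDiff ComplexConjugate ComplexOrder Manifold Matrix

namespace Pool.Agent.Helper52.RK

open Pool.Agent.Helper95.Lin Pool.Agent.Helper16.Abund Pool.Agent.Helper92.Orb
  Pool.Agent.Helper10.SP Pool.Agent.Helper95.RK

variable {b k : ℕ}

/-- A fibre vector is a combination of the `ef i`. -/
theorem eq_sum_ef {u : Cn (b + k)} (hu : base u = 0) : u = ∑ p, fib u p • ef b p := by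
  apply ext_base_fib
  · rw [hu]
    have h1 : base (∑ p, fib u p • ef b p) = ∑ p, fib u p • base (ef b p) := by
      have := map_sum (bsL b k) (fun p => fib u p • ef b p) Finset.univ
      simpa only [bsL_apply, base_smul] using this
    rw [h1]
    simp
  · have h1 : fib (∑ p, fib u p • ef b p) = ∑ p, fib u p • fib (ef b p) := by
      have := map_sum (fbL b k) (fun p => fib u p • ef b p) Finset.univ
      simpa only [fbL_apply, fib_smul] using this
    rw [h1]
    funext l
    simp [Finset.sum_apply, Pi.single_apply]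

theorem fder_zero {f : Cn (b + k) → ℂ} {y : Cn (b + k)}
    (h1 : ∀ p : Fin k, cd (Fin.natAdd b p) f y = 0)
    (h2 : ∀ p : Fin k, cdb (Fin.natAdd b p) f y = 0) {u : Cn (b + k)} (hu : base u = 0) :
    fderiv ℝ f y u = 0 := by
  have h3 : ∀ p : Fin k, fderiv ℝ f y (ef b p) = 0 ∧ fderiv ℝ f y (I • ef b p) = 0 := by
    intro p
    have e0 : (Pi.single (Fin.natAdd b p) I : Cn (b + k)) = I • ef b p := by
      rw [ef, ← Pi.single_smul]
      simp
    have e1 := h1 p
    have e2 := h2 p
    unfold cd at e1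
    unfold cdb at e2
    rw [e0] at e1 e2
    change fderiv ℝ f y (ef b p) - I * fderiv ℝ f y (I • ef b p) = 0 at e1
    change fderiv ℝ f y (ef b p) + I * fderiv ℝ f y (I • ef b p) = 0 at e2
    have e3 : 2 * fderiv ℝ f y (ef b p) = 0 := by linear_combination e1 + e2
    have e4 : (2 * I) * fderiv ℝ f y (I • ef b p) = 0 := by linear_combination e2 - e1
    refine ⟨by simpa using e3, ?_⟩
    have := mul_eq_zero.1 e4
    rcases this with h | h
    · simp at h
    · exact h
  rw [eq_sum_ef hu, map_sum]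
  refine Finset.sum_eq_zero fun p _ => ?_
  have e5 : fib u p • ef b p = (fib u p).re • ef b p + (fib u p).im • (I • ef b p) := by
    nth_rewrite 1 [← Complex.re_add_im (fib u p)]
    rw [add_smul, mul_smul]
    rfl
  rw [e5, map_add, map_smul, map_smul, (h3 p).1, (h3 p).2, smul_zero, smul_zero, add_zero]

/-- `w ↦ ptK 0 w` -/
noncomputable def inL (b k : ℕ) : Cn k →L[ℂ] Cn (b + k) :=
  (ptL b k).comp (ContinuousLinearMap.inr ℂ (Cn b) (Cn k))

@[simp] theorem inL_apply (w : Cn k) : inL b k w = ptK 0 w := rfl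

/-- `z ↦ ptK z 0` -/
noncomputable def zL (b k : ℕ) : Cn b →L[ℂ] Cn (b + k) :=
  (ptL b k).comp (ContinuousLinearMap.inl ℂ (Cn b) (Cn k))

@[simp] theorem zL_apply (z : Cn b) : zL b k z = ptK z 0 := rfl

theorem hasFDerivAt_ptK_right (z : Cn b) (w : Cn k) :
    HasFDerivAt (fun w => ptK z w : Cn k → Cn (b + k)) (inL b k) w := by
  have h1 : (fun w => ptK z w : Cn k → Cn (b + k)) = fun w => ptK z 0 + inL b k w := by
    funext w
    rw [inL_apply, ← ptK_add, add_zero, zero_add]
  rw [h1]
  exact (inL b k).hasFDerivAt.const_add _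

theorem hasFDerivAt_ptK_left (z : Cn b) (w : Cn k) :
    HasFDerivAt (fun z => ptK z w : Cn b → Cn (b + k)) (zL b k) z := by
  have h1 : (fun z => ptK z w : Cn b → Cn (b + k)) = fun z => ptK 0 w + zL b k z := by
    funext z
    rw [zL_apply, ← ptK_add, add_zero, zero_add]
  rw [h1]
  exact (zL b k).hasFDerivAt.const_add _

/-- A function with zero fibre derivative does not depend on the fibre coordinate. -/
theorem fib_const {f : Cn (b + k) → ℂ} {z : Cn b} {Δ : Set (Cn k)} (hΔ : IsOpen Δ)
    (hΔc : IsPreconnected Δ) (hf : ∀ w ∈ Δ, DifferentiableAt ℝ f (ptK z w))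
    (h0 : ∀ w ∈ Δ, ∀ u : Cn (b + k), base u = 0 → fderiv ℝ f (ptK z w) u = 0) {w w' : Cn k}
    (hw : w ∈ Δ) (hw' : w' ∈ Δ) : f (ptK z w) = f (ptK z w') := by
  have h1 : ∀ w ∈ Δ, HasFDerivAt (fun w => f (ptK z w)) (0 : Cn k →L[ℝ] ℂ) w := by
    intro w hw
    have h2 := (hf w hw).hasFDerivAt.comp w
      ((hasFDerivAt_ptK_right z w).restrictScalars ℝ)
    refine h2.congr_fderiv ?_
    refine ContinuousLinearMap.ext fun u => ?_
    exact h0 w hw (ptK 0 u) (base_ptK _ _)
  exact hΔ.is_const_of_fderiv_eq_zero hΔc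
    (fun w hw => (h1 w hw).differentiableAt.differentiableWithinAt)
    (fun w hw => (h1 w hw).fderiv) hw hw'

end Pool.Agent.Helper52.RK
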