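import Pool.Agent.Helper15.RK.GoalsF

/-! Common part of the Stokes formulas ST1, ST2 of project RK. -/

open Complex Metric Set Filter Topology MeasureTheory
open scoped ContDiff ComplexConjugate ComplexOrder Manifold Matrix

namespace Pool.Agent.Helper52.RK

open Pool.Agent.Helper95.Lin Pool.Agent.Helper16.Abund Pool.Agent.Helper92.Orb
  Pool.Agent.Helper10.SP Pool.Agent.Helper95.RK Pool.Agent.Helper15.RK

universe u v

/-- Limits of invariant densities with integral zero. -/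
theorem dz_limit {n : ℕ} {T : Set (Cn n)} {G : Type u} [Group G] {R : G → Cn n → Cn n → Prop}
    (hT : IsOpen T) (hR : ∀ γ x y, R γ x y → x ∈ T ∧ y ∈ T) {κ : Cn n → ℝ} (hκ : TestF T κ)
    {P : ℝ → Cn n → ℝ} {F : Cn n → ℝ}
    (hPc : ∀ s, 1 ≤ s → ContinuousOn (P s) T)
    (hPi : ∀ s, 1 ≤ s → ∀ U τ, Arr R U τ → ∀ x ∈ U,
      P s x = P s (τ x) * ‖(fderiv ℂ τ x).det‖ ^ 2)
    (hP0 : ∀ s, 1 ≤ s → ∫ x in T, κ x * P s x = 0)
    (hPb : ∀ C ⊆ T, IsCompact C → ∃ B : ℝ, ∀ x ∈ C, ∀ s, 1 ≤ s → |P s x| ≤ B)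
    (hlim : ∀ x ∈ T, Tendsto (fun s => P s x) atTop (𝓝 (F x)))
    (hF : ContinuousOn F T) : Dz T R κ F := by
  refine ⟨hF, ?_, ?_⟩
  · intro U τ hτ x hx
    obtain ⟨hU, -, γ, hγ⟩ := id hτ
    have hm := hR _ _ _ (hγ x hx)
    refine tendsto_nhds_unique (hlim x hm.1) ?_
    refine ((hlim (τ x) hm.2).mul_const (‖(fderiv ℂ τ x).det‖ ^ 2)).congr' ?_
    filter_upwards [eventually_ge_atTop 1] with s hs
    exact (hPi s hs U τ hτ x hx).symm
  · obtain ⟨hκ1, hκ2, hκ3⟩ := hκ
    obtain ⟨B, hB⟩ := hPb (tsupport κ) hκ3 hκ2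
    have hmeas : MeasurableSet T := hT.measurableSet
    have hlim2 : Tendsto (fun s => ∫ x in T, κ x * P s x) atTop (𝓝 (∫ x in T, κ x * F x)) := by
      refine tendsto_integral_filter_of_dominated_convergence (fun x => B * |κ x|) ?_ ?_ ?_ ?_
      · filter_upwards [eventually_ge_atTop 1] with s hs
        exact ((hκ1.continuous.continuousOn).mul (hPc s hs)).aestronglyMeasurable hmeas
      · filter_upwards [eventually_ge_atTop 1] with s hs
        refine ae_of_all _ fun x => ?_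
        rw [norm_mul, Real.norm_eq_abs, Real.norm_eq_abs, mul_comm]
        by_cases hx : x ∈ tsupport κ
        · exact mul_le_mul_of_nonneg_right (hB x hx s hs) (abs_nonneg _)
        · rw [image_eq_zero_of_notMem_tsupport hx]
          simp
      · refine Integrable.integrableOn ?_
        exact (hκ1.continuous.integrable_of_hasCompactSupport hκ2).abs.const_mul B
      · refine (ae_restrict_mem hmeas).mono fun x hx => ?_
        exact (hlim x hx).const_mul (κ x)
    refine tendsto_nhds_unique hlim2 ?_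
    refine tendsto_const_nhds.congr' ?_
    filter_upwards [eventually_ge_atTop 1] with s hs
    exact (hP0 s hs).symm

/-- The limit of the inverse of `H + s θ` in a frame. -/
noncomputable def Kf {b k : ℕ} (H : Cn (b + k) → Matrix (Fin (b + k)) (Fin (b + k)) ℂ)
    (v : Fin k → Cn (b + k) → Cn (b + k)) (x : Cn (b + k)) :
    Matrix (Fin (b + k)) (Fin (b + k)) ℂ :=
  Matrix.of fun j l => ∑ α, ∑ β, conj (v α x j) * (gram H v x)⁻¹ α β * v β x l

theorem psd_of_lev {n : ℕ} (hLMF : S_LMF) {W : Set (Cn n)} (hW : IsOpen W) {Φ : Cn n → ℝ}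
    (hΦ : ContDiffOn ℝ ∞ Φ W) {x : Cn n} (hx : x ∈ W) (hp : ∀ e, 0 ≤ lev Φ x e) :
    (LM Φ x).PosSemidef := by
  obtain ⟨h1, h2, h3, h4⟩ := hLMF W hW Φ hΦ
  refine Matrix.PosSemidef.of_dotProduct_mulVec_nonneg (h2 x hx) ?_
  intro e
  have h5 : star e ⬝ᵥ (LM Φ x *ᵥ e) = hermi (LM Φ x) (fun i => conj (e i)) (fun i => conj (e i)) := by
    simp only [hermi, dotProduct, Matrix.mulVec, Pi.star_apply, Finset.mul_sum]
    refine Finset.sum_congr rfl fun i _ => Finset.sum_congr rfl fun j _ => ?_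
    simp only [RCLike.star_def, Complex.conj_conj]
    ring
  rw [h5, ← h3 x hx]
  exact_mod_cast hp _

theorem cont_inv {n m : ℕ} {W : Set (Cn n)} {A : Cn n → Matrix (Fin m) (Fin m) ℂ}
    (hA : ∀ i j, ContinuousOn (fun x => A x i j) W) (hd : ∀ x ∈ W, (A x).det ≠ 0) :
    ContinuousOn (fun x => (A x)⁻¹) W := by
  have hA' : ContinuousOn A W := by
    refine continuousOn_pi.2 fun i => continuousOn_pi.2 fun j => hA i j
  have h1 : ∀ x, (A x)⁻¹ = ((A x).det)⁻¹ • (A x).adjugate := fun x => by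
    rw [Matrix.inv_def, Ring.inverse_eq_inv']
  have h2 : ContinuousOn (fun x => (A x).det) W := (continuous_id.matrix_det).comp_continuousOn hA'
  have h3 : ContinuousOn (fun x => (A x).adjugate) W :=
    (continuous_id.matrix_adjugate).comp_continuousOn hA'
  exact ((h2.inv₀ hd).smul h3).congr fun x _ => h1 x

theorem frame_lim (hLMF : S_LMF) (hLIMK : S_LIMK) (hKFB : S_KFB)
    {b k : ℕ} {T : Set (Cn (b + k))} {G : Type u} [Group G]
    {R : G → Cn (b + k) → Cn (b + k) → Prop}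
    {H : Cn (b + k) → Matrix (Fin (b + k)) (Fin (b + k)) ℂ} {Φ : Cn (b + k) → ℝ}
    {g : Cn (b + k) → Matrix (Fin (b + k)) (Fin (b + k)) ℂ} (hF : FrT T R H Φ g)
    {W : Set (Cn (b + k))} {L : Cn (b + k) →ₗ[ℂ] Cn k} {w : Fin b → Cn (b + k)}
    {v : Fin k → Cn (b + k) → Cn (b + k)} (hfr : KFr Φ W L w v) (hWT : W ⊆ T)
    {x : Cn (b + k)} (hx : x ∈ W) :
    Tendsto (fun s : ℝ => (H x + (s : ℂ) • LM Φ x).det.re / s ^ b) atTop
      (𝓝 (dens Φ H w v x)) ∧
    Tendsto (fun s : ℝ => (H x + (s : ℂ) • LM Φ x)⁻¹) atTop (𝓝 (Kf H v x)) := by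
  have hH : (H x).PosDef := hF.ket.posDef x (hWT hx)
  have hθ : (LM Φ x).PosSemidef := psd_of_lev hLMF hfr.isOpen hfr.smP hx (hfr.psd x hx)
  obtain ⟨m1, m2, m3, m4⟩ := hLMF W hfr.isOpen Φ hfr.smP
  have hon : ∀ e, hermi (LM Φ x) e e = 0 → e = ∑ α, L e α • v α x := by
    intro e he
    refine hfr.only x hx e ?_
    have := m3 x hx e
    rw [he] at this
    exact_mod_cast this
  obtain ⟨l1, l2, l3, l4, l5⟩ := hLIMK (H x) (LM Φ x) L w (fun α => v α x) hH hθ
    (fun α => hfr.norm x hx α) (fun α j => hfr.ker x hx α j) hon hfr.lin hfr.Lw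
  obtain ⟨f1, f2, f3, f4, f5, f6⟩ := hKFB hfr
  obtain ⟨f7, f8⟩ := f6 H (fun i j => (hF.ket.smooth i j).mono hWT)
  obtain ⟨g1, g2, g3⟩ := f8 (fun x hx => hF.ket.posDef x (hWT hx)) x hx
  constructor
  · have h1 := (Complex.continuous_re.tendsto _).comp l4
    have h2 : ((Matrix.of fun i j : Fin b => hermi (LM Φ x) (w i) (w j)).det *
      (Matrix.of fun α β : Fin k => hermi (H x) (v α x) (v β x)).det /
        ((‖(PM w fun α => v α x).det‖ ^ 2 : ℝ) : ℂ)).re = dens Φ H w v x := by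
      rw [Complex.div_ofReal_re, Complex.mul_re]
      have e1 : (Matrix.of fun i j : Fin b => hermi (LM Φ x) (w i) (w j)).det.im = 0 := (f1 x hx).1
      rw [e1, zero_mul, sub_zero]
      rfl
    rw [h2] at h1
    refine h1.congr fun s => ?_
    simp only [Function.comp]
    rw [← Complex.ofReal_pow, Complex.div_ofReal_re]
  · refine tendsto_pi_nhds.2 fun j => tendsto_pi_nhds.2 fun l => ?_
    exact l5 j l

/-- The Stokes formula in the limit `s → ∞`, for a continuous function `V` of the inverse metric. -/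
theorem core (hLMF : S_LMF) (hLIMK : S_LIMK) (hKFE : S_KFE) (hKFB : S_KFB)
    (hBNDK : S_BNDK.{u}) {b k : ℕ} {T : Set (Cn (b + k))} {G : Type u} [Group G]
    {R : G → Cn (b + k) → Cn (b + k) → Prop}
    {H : Cn (b + k) → Matrix (Fin (b + k)) (Fin (b + k)) ℂ} {Φ : Cn (b + k) → ℝ}
    {g : Cn (b + k) → Matrix (Fin (b + k)) (Fin (b + k)) ℂ} (hF : FrT T R H Φ g)
    {κ : Cn (b + k) → ℝ} (hκ : IsPUE T R κ)
    (V : Matrix (Fin (b + k)) (Fin (b + k)) ℂ → Cn (b + k) → ℂ)
    (hV : ContinuousOn (fun p : Matrix (Fin (b + k)) (Fin (b + k)) ℂ × Cn (b + k) => V p.1 p.2)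
      (univ ×ˢ T))
    (hK : ∀ s : ℝ, 0 ≤ s → KEt T R fun x => H x + (s : ℂ) • LM Φ x)
    (hPi : ∀ s : ℝ, 1 ≤ s → ∀ U τ, Arr R U τ → ∀ x ∈ U,
      (H x + (s : ℂ) • LM Φ x).det.re * (V (H x + (s : ℂ) • LM Φ x)⁻¹ x).re =
      (H (τ x) + (s : ℂ) • LM Φ (τ x)).det.re *
        (V (H (τ x) + (s : ℂ) • LM Φ (τ x))⁻¹ (τ x)).re * ‖(fderiv ℂ τ x).det‖ ^ 2)
    (hP0 : ∀ s : ℝ, 1 ≤ s → ∫ x in T, κ x * ((H x + (s : ℂ) • LM Φ x).det.re *
      (V (H x + (s : ℂ) • LM Φ x)⁻¹ x).re) = 0) :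
    ∃ F, Dz T R κ F ∧
    ∀ (W : Set (Cn (b + k))) (L : Cn (b + k) →ₗ[ℂ] Cn k) (w : Fin b → Cn (b + k))
      (v : Fin k → Cn (b + k) → Cn (b + k)), KFr Φ W L w v → W ⊆ T → ∀ x ∈ W,
      F x = dens Φ H w v x * (V (Kf H v x) x).re := by
  classical
  have hTo : IsOpen T := hF.ket.et.isOpen
  have hHne : ∀ s : ℝ, 0 ≤ s → ∀ x ∈ T, (H x + (s : ℂ) • LM Φ x).det ≠ 0 := by
    intro s hs x hx
    exact ((hK s hs).posDef x hx).det_pos.ne'
  have hHc : ∀ s : ℝ, 0 ≤ s → ∀ i j, ContinuousOn (fun x => (H x + (s : ℂ) • LM Φ x) i j) T :=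
    fun s hs i j => ((hK s hs).smooth i j).continuousOn
  have hdc : ∀ s : ℝ, 0 ≤ s → ContinuousOn (fun x => (H x + (s : ℂ) • LM Φ x).det) T := by
    intro s hs
    have h1 : ContinuousOn (fun x => (H x + (s : ℂ) • LM Φ x)) T :=
      continuousOn_pi.2 fun i => continuousOn_pi.2 fun j => hHc s hs i j
    exact (continuous_id.matrix_det).comp_continuousOn h1
  let P : ℝ → Cn (b + k) → ℝ := fun s x => (H x + (s : ℂ) • LM Φ x).det.re / s ^ b *
    (V (H x + (s : ℂ) • LM Φ x)⁻¹ x).re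
  have hPeq : ∀ s x, P s x = (s ^ b)⁻¹ * ((H x + (s : ℂ) • LM Φ x).det.re *
    (V (H x + (s : ℂ) • LM Φ x)⁻¹ x).re) := fun s x => by
    simp only [P, div_eq_mul_inv]; ring
  have hfl : ∀ (W : Set (Cn (b + k))) (L : Cn (b + k) →ₗ[ℂ] Cn k) (w : Fin b → Cn (b + k))
      (v : Fin k → Cn (b + k) → Cn (b + k)), KFr Φ W L w v → W ⊆ T → ∀ x ∈ W,
      Tendsto (fun s => P s x) atTop (𝓝 (dens Φ H w v x * (V (Kf H v x) x).re)) := by
    intro W L w v hfr hWT x hx
    obtain ⟨h1, h2⟩ := frame_lim hLMF hLIMK hKFB hF hfr hWT hx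
    refine h1.mul ((Complex.continuous_re.tendsto _).comp ?_)
    have h3 : ContinuousAt (fun K : Matrix (Fin (b + k)) (Fin (b + k)) ℂ => V K x) (Kf H v x) := by
      have h4 : ContinuousOn (fun K : Matrix (Fin (b + k)) (Fin (b + k)) ℂ => V K x) univ := by
        have h5 : ContinuousOn (fun K : Matrix (Fin (b + k)) (Fin (b + k)) ℂ => (K, x)) univ := by
          fun_prop
        exact hV.comp h5 (fun K _ => ⟨mem_univ _, hWT hx⟩)
      exact h4.continuousAt univ_mem
    exact h3.tendsto.comp h2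
  let F : Cn (b + k) → ℝ := fun x => limUnder atTop (fun s => P s x)
  have hFv : ∀ (W : Set (Cn (b + k))) (L : Cn (b + k) →ₗ[ℂ] Cn k) (w : Fin b → Cn (b + k))
      (v : Fin k → Cn (b + k) → Cn (b + k)), KFr Φ W L w v → W ⊆ T → ∀ x ∈ W,
      F x = dens Φ H w v x * (V (Kf H v x) x).re := by
    intro W L w v hfr hWT x hx
    exact (hfl W L w v hfr hWT x hx).limUnder_eq
  refine ⟨F, ?_, hFv⟩
  refine dz_limit (P := P) hTo hF.ket.et.mem hκ.test ?_ ?_ ?_ ?_ ?_ ?_
  · intro s hs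
    have hs0 : (0 : ℝ) ≤ s := zero_le_one.trans hs
    have h1 : ContinuousOn (fun x => (H x + (s : ℂ) • LM Φ x)⁻¹) T :=
      cont_inv (hHc s hs0) (hHne s hs0)
    have h2 : ContinuousOn (fun x => V (H x + (s : ℂ) • LM Φ x)⁻¹ x) T :=
      hV.comp (h1.prodMk continuousOn_id) (fun x hx => ⟨mem_univ _, hx⟩)
    exact ((Complex.continuous_re.comp_continuousOn (hdc s hs0)).div_const _).mul
      (Complex.continuous_re.comp_continuousOn h2)
  · intro s hs U τ hτ x hx
    rw [hPeq, hPeq, hPi s hs U τ hτ x hx]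
    ring
  · intro s hs
    have h1 : ∀ x, κ x * P s x = (s ^ b)⁻¹ * (κ x * ((H x + (s : ℂ) • LM Φ x).det.re *
        (V (H x + (s : ℂ) • LM Φ x)⁻¹ x).re)) := fun x => by rw [hPeq]; ring
    simp_rw [h1]
    rw [integral_const_mul, hP0 s hs, mul_zero]
  · intro C hCT hC
    obtain ⟨B, hB⟩ := hBNDK hF C hCT hC
    let S : Set (Matrix (Fin (b + k)) (Fin (b + k)) ℂ) :=
      Set.pi univ fun _ => Set.pi univ fun _ => closedBall (0 : ℂ) B
    have hS : IsCompact S := isCompact_univ_pi fun _ => isCompact_univ_pi fun _ =>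
      isCompact_closedBall _ _
    obtain ⟨B', hB'⟩ := (hS.prod hC).exists_bound_of_continuousOn
      (hV.mono (prod_mono (subset_univ _) hCT))
    refine ⟨B * B', fun x hx s hs => ?_⟩
    obtain ⟨h1, h2⟩ := hB x hx s hs
    have hs0 : (0 : ℝ) < s ^ b := pow_pos (zero_lt_one.trans_le hs) b
    have h3 : |(H x + (s : ℂ) • LM Φ x).det.re / s ^ b| ≤ B := by
      rw [abs_div, abs_of_pos hs0, div_le_iff₀ hs0]
      exact (Complex.abs_re_le_norm _).trans h1
    have h4 : |(V (H x + (s : ℂ) • LM Φ x)⁻¹ x).re| ≤ B' := by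
      refine (Complex.abs_re_le_norm _).trans ?_
      refine hB' ((H x + (s : ℂ) • LM Φ x)⁻¹, x) ⟨?_, hx⟩
      exact fun j _ l _ => by
        rw [mem_closedBall_zero_iff]
        exact h2 j l
    rw [abs_mul]
    exact mul_le_mul h3 h4 (abs_nonneg _) ((abs_nonneg _).trans h3)
  · intro x hx
    obtain ⟨W, L, w, v, hWT, hxW, hfr⟩ := hKFE T hTo Φ hF.smP hF.rank x hx
    rw [hFv W L w v hfr hWT x hxW]
    exact hfl W L w v hfr hWT x hxW
  · intro x hx
    obtain ⟨W, L, w, v, hWT, hxW, hfr⟩ := hKFE T hTo Φ hF.smP hF.rank x hx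
    have hWo : IsOpen W := hfr.isOpen
    obtain ⟨f1, f2, f3, f4, f5, f6⟩ := hKFB hfr
    obtain ⟨f7, f8⟩ := f6 H (fun i j => (hF.ket.smooth i j).mono hWT)
    have f9 := f8 (fun x hx => hF.ket.posDef x (hWT hx))
    have hgc : ContinuousOn (fun x => gram H v x) W :=
      continuousOn_pi.2 fun i => continuousOn_pi.2 fun j => (f7 i j).continuousOn
    have hgi : ContinuousOn (fun x => (gram H v x)⁻¹) W :=
      cont_inv (fun i j => (f7 i j).continuousOn) (fun x hx => (f9 x hx).1.det_pos.ne')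
    have hvc : ∀ α j, ContinuousOn (fun x => v α x j) W := fun α j =>
      (continuous_apply j).comp_continuousOn (hfr.smv α).continuousOn
    have hKc : ContinuousOn (fun x => Kf H v x) W := by
      refine continuousOn_pi.2 fun j => continuousOn_pi.2 fun l => ?_
      change ContinuousOn (fun x => ∑ α, ∑ β, conj (v α x j) * (gram H v x)⁻¹ α β * v β x l) W
      refine continuousOn_finsetSum _ fun α _ => ?_
      refine continuousOn_finsetSum _ fun β _ => ?_
      have h1 : ContinuousOn (fun x => (gram H v x)⁻¹ α β) W :=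
        (continuous_apply_apply α β).comp_continuousOn hgi
      exact ((Complex.continuous_conj.comp_continuousOn (hvc α j)).mul h1).mul (hvc β l)
    have hdens : ContinuousOn (dens Φ H w v) W := by
      have h1 : ContinuousOn (fun x => (mdet Φ w x).re) W :=
        Complex.continuous_re.comp_continuousOn f2.continuousOn
      have h2 : ContinuousOn (fun x => (gram H v x).det.re) W :=
        Complex.continuous_re.comp_continuousOn ((continuous_id.matrix_det).comp_continuousOn hgc)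
      have h3 : ContinuousOn (fun x => ‖(PM w fun α => v α x).det‖ ^ 2) W := by
        refine (continuousOn_const (c := ‖(PM w fun α => v α x).det‖ ^ 2)).congr ?_
        intro y hy
        change ‖(PM w fun α => v α y).det‖ ^ 2 = ‖(PM w fun α => v α x).det‖ ^ 2
        rw [f4 y hy x hxW]
      refine (h1.mul h2).div h3 ?_
      intro y hy
      exact pow_ne_zero 2 (norm_ne_zero_iff.2 (f3 y hy))
    have hval : ContinuousOn (fun x => dens Φ H w v x * (V (Kf H v x) x).re) W := by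
      refine hdens.mul (Complex.continuous_re.comp_continuousOn ?_)
      exact hV.comp (hKc.prodMk continuousOn_id) (fun x hx => ⟨mem_univ _, hWT hx⟩)
    have hFW : ContinuousOn F W := hval.congr (fun y hy => hFv W L w v hfr hWT y hy)
    exact (hFW.continuousAt (hWo.mem_nhds hxW)).continuousWithinAt

end Pool.Agent.Helper52.RK
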